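import Mathlib

set_option autoImplicit false
set_option maxHeartbeats 4000000

namespace Pool.Agent.MP_0f2988_co

open Polynomial

universe u

/-- an infinite connected vertex-transitive locally finite graph, with neighbour finsets -/
structure RG (V : Type u) where
  G : SimpleGraph V
  N : V → Finset V
  hN : ∀ v w, w ∈ N v ↔ G.Adj v w
  d : ℕ
  hd : ∀ v, (N v).card = d
  conn : G.Connected
  inf : Infinite V
  trans : ∀ u v, ∃ σ : G ≃g G, σ u = v

variable {V : Type u} (H : RG V)

lemma RG.symm {v w : V} : w ∈ H.N v ↔ v ∈ H.N w := by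
  rw [H.hN, H.hN, SimpleGraph.adj_comm]

/-- the operator `(d+2) - A` on finitely supported functions -/
noncomputable def M : Module.End ℝ (V →₀ ℝ) :=
  Finsupp.linearCombination ℝ
    (fun v => ((H.d : ℝ) + 2) • Finsupp.single v (1 : ℝ) - ∑ w ∈ H.N v, Finsupp.single w (1 : ℝ))

lemma M_single (v : V) (r : ℝ) : M H (Finsupp.single v r) =
    r • (((H.d : ℝ) + 2) • Finsupp.single v (1 : ℝ) - ∑ w ∈ H.N v, Finsupp.single w (1 : ℝ)) := by
  unfold M
  rw [Finsupp.linearCombination_single]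

lemma M_apply (a : V →₀ ℝ) (x : V) :
    M H a x = ((H.d : ℝ) + 2) * a x - ∑ w ∈ H.N x, a w := by
  classical
  induction a using Finsupp.induction_linear with
  | zero => simp
  | add a b ha hb =>
    rw [map_add, Finsupp.add_apply, ha, hb]
    simp only [Finsupp.add_apply, Finset.sum_add_distrib]
    ring
  | single v r =>
    rw [M_single]
    simp only [Finsupp.smul_apply, Finsupp.sub_apply, smul_eq_mul, Finsupp.coe_finsetSum,
      Finset.sum_apply, Finsupp.single_apply]
    have h1 : (∑ w ∈ H.N v, if w = x then (1 : ℝ) else 0) = if x ∈ H.N v then 1 else 0 := by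
      rw [Finset.sum_ite_eq']
    have h2 : (∑ w ∈ H.N x, if v = w then r else 0) = if v ∈ H.N x then r else 0 := by
      rw [Finset.sum_ite_eq]
    rw [h1, h2]
    by_cases hx : v ∈ H.N x
    · rw [if_pos hx, if_pos (H.symm.1 hx)]
      split_ifs <;> ring
    · rw [if_neg hx, if_neg (fun h => hx (H.symm.1 h))]
      split_ifs <;> ring

/-- pairing of a finitely supported function with a function -/
noncomputable def ev (a : V →₀ ℝ) (g : V → ℝ) : ℝ := Finsupp.linearCombination ℝ g a

lemma ev_add (a b : V →₀ ℝ) (g : V → ℝ) : ev (a + b) g = ev a g + ev b g := by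
  simp [ev]
lemma ev_sub (a b : V →₀ ℝ) (g : V → ℝ) : ev (a - b) g = ev a g - ev b g := by
  simp [ev]
lemma ev_smul (r : ℝ) (a : V →₀ ℝ) (g : V → ℝ) : ev (r • a) g = r * ev a g := by
  simp [ev]
lemma ev_neg (a : V →₀ ℝ) (g : V → ℝ) : ev (-a) g = - ev a g := by
  simp [ev]
lemma ev_zero (g : V → ℝ) : ev (0 : V →₀ ℝ) g = 0 := by
  simp [ev]
lemma ev_single (v : V) (r : ℝ) (g : V → ℝ) : ev (Finsupp.single v r) g = r * g v := by
  simp [ev, Finsupp.linearCombination_single]
lemma ev_sum {ι : Type*} (s : Finset ι) (f : ι → V →₀ ℝ) (g : V → ℝ) :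
    ev (∑ i ∈ s, f i) g = ∑ i ∈ s, ev (f i) g := by
  unfold ev
  rw [map_sum]

lemma ev_eq_sum (a : V →₀ ℝ) (g : V → ℝ) (W : Finset V) (hW : a.support ⊆ W) :
    ev a g = ∑ x ∈ W, a x * g x := by
  unfold ev
  rw [Finsupp.linearCombination_apply, Finsupp.sum_of_support_subset a hW _ (by simp)]
  simp

/-- inner product -/
noncomputable def ip (a b : V →₀ ℝ) : ℝ := ev a b

lemma ip_comm (a b : V →₀ ℝ) : ip a b = ip b a := by
  classical
  unfold ip
  rw [ev_eq_sum a b (a.support ∪ b.support) Finset.subset_union_left,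
    ev_eq_sum b a (a.support ∪ b.support) Finset.subset_union_right]
  exact Finset.sum_congr rfl (fun x _ => mul_comm _ _)

lemma ip_add_left (a b c : V →₀ ℝ) : ip (a + b) c = ip a c + ip b c := ev_add a b c
lemma ip_sub_left (a b c : V →₀ ℝ) : ip (a - b) c = ip a c - ip b c := ev_sub a b c
lemma ip_smul_left (r : ℝ) (b c : V →₀ ℝ) : ip (r • b) c = r * ip b c := ev_smul r b c
lemma ip_add_right (a b c : V →₀ ℝ) : ip a (b + c) = ip a b + ip a c := by
  rw [ip_comm, ip_add_left, ip_comm b, ip_comm c]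
lemma ip_sub_right (a b c : V →₀ ℝ) : ip a (b - c) = ip a b - ip a c := by
  rw [ip_comm, ip_sub_left, ip_comm b, ip_comm c]
lemma ip_smul_right (r : ℝ) (b c : V →₀ ℝ) : ip b (r • c) = r * ip b c := by
  rw [ip_comm, ip_smul_left, ip_comm]
lemma ip_single_left (v : V) (r : ℝ) (b : V →₀ ℝ) : ip (Finsupp.single v r) b = r * b v :=
  ev_single v r b
lemma ip_single_right (v : V) (r : ℝ) (b : V →₀ ℝ) : ip b (Finsupp.single v r) = r * b v := by
  rw [ip_comm, ip_single_left]

lemma ip_self_nonneg (a : V →₀ ℝ) : 0 ≤ ip a a := by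
  unfold ip
  rw [ev_eq_sum a a a.support (le_refl _)]
  exact Finset.sum_nonneg (fun x _ => mul_self_nonneg _)

/-- `M` is symmetric -/
lemma ip_M (a b : V →₀ ℝ) : ip (M H a) b = ip a (M H b) := by
  classical
  induction a using Finsupp.induction_linear with
  | zero => simp [ip, ev_zero]
  | add a b ha hb => rw [map_add, ip_add_left, ip_add_left, ha, hb]
  | single v r =>
    rw [M_single, ip_single_left, M_apply, ip_smul_left, ip_sub_left, ip_smul_left,
      ip_single_left]
    unfold ip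
    rw [ev_sum]
    simp only [ev_single, one_mul]

/-- the Laplacian -/
noncomputable def L : Module.End ℝ (V →₀ ℝ) := M H - 2

lemma L_apply (a : V →₀ ℝ) (x : V) : L H a x = (H.d : ℝ) * a x - ∑ w ∈ H.N x, a w := by
  have : L H a = M H a - (2 : ℝ) • a := by
    unfold L
    rw [LinearMap.sub_apply]
    congr 1
    rw [show (2 : Module.End ℝ (V →₀ ℝ)) = (2 : ℝ) • (1 : Module.End ℝ (V →₀ ℝ)) by
      rw [← one_add_one_eq_two (R := ℝ), add_smul, one_smul, one_add_one_eq_two]]
    rfl
  rw [this, Finsupp.sub_apply, M_apply, Finsupp.smul_apply, smul_eq_mul]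
  ring

lemma L_eq (a : V →₀ ℝ) : L H a = M H a - (2 : ℝ) • a := by
  ext x
  rw [Finsupp.sub_apply, Finsupp.smul_apply, smul_eq_mul, L_apply, M_apply]
  ring

lemma ip_L (a b : V →₀ ℝ) : ip (L H a) b = ip a (L H b) := by
  rw [L_eq, L_eq, ip_sub_left, ip_sub_right, ip_M, ip_smul_left, ip_smul_right]

/-- Dirichlet energy formula -/
lemma energy (a : V →₀ ℝ) (B : Finset V) (hB1 : a.support ⊆ B)
    (hB2 : ∀ w ∈ a.support, H.N w ⊆ B) :
    2 * ip a (L H a) = ∑ x ∈ B, ∑ w ∈ H.N x, (a x - a w) ^ 2 := by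
  classical
  have key : ∑ x ∈ B, ∑ w ∈ H.N x, (a w) ^ 2 = (H.d : ℝ) * ∑ w ∈ a.support, (a w) ^ 2 := by
    have h1 : ∀ x ∈ B, ∑ w ∈ H.N x, (a w) ^ 2 = ∑ w ∈ H.N x ∩ a.support, (a w) ^ 2 := by
      intro x _
      symm
      apply Finset.sum_subset Finset.inter_subset_left
      intro w hw1 hw2
      have : a w = 0 := by
        by_contra h
        exact hw2 (Finset.mem_inter.2 ⟨hw1, Finsupp.mem_support_iff.2 h⟩)
      rw [this]; ring
    rw [Finset.sum_congr rfl h1]
    rw [Finset.sum_comm' (t' := a.support) (s' := fun w => H.N w)]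
    · rw [Finset.mul_sum]
      apply Finset.sum_congr rfl
      intro w _
      rw [Finset.sum_const, H.hd, nsmul_eq_mul]
    · intro x w
      rw [Finset.mem_inter]
      constructor
      · rintro ⟨_, h1, h2⟩
        exact ⟨H.symm.1 h1, h2⟩
      · rintro ⟨h1, h2⟩
        exact ⟨hB2 w h2 h1, H.symm.1 h1, h2⟩
  have e1 : ∀ x ∈ B, ∑ w ∈ H.N x, (a x - a w) ^ 2
      = (H.d : ℝ) * (a x) ^ 2 + ∑ w ∈ H.N x, (a w) ^ 2 - 2 * a x * ∑ w ∈ H.N x, a w := by
    intro x _
    have : ∀ w ∈ H.N x, (a x - a w) ^ 2 = (a x) ^ 2 + (a w) ^ 2 - 2 * a x * a w := by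
      intro w _; ring
    rw [Finset.sum_congr rfl this, Finset.sum_sub_distrib, Finset.sum_add_distrib,
      Finset.sum_const, H.hd, nsmul_eq_mul, Finset.mul_sum]
  rw [Finset.sum_congr rfl e1, Finset.sum_sub_distrib, Finset.sum_add_distrib, key]
  have e2 : ∑ w ∈ a.support, (a w) ^ 2 = ∑ w ∈ B, (a w) ^ 2 := by
    apply Finset.sum_subset hB1
    intro x _ hx
    rw [Finsupp.notMem_support_iff.1 hx]; ring
  rw [e2]
  unfold ip
  rw [ev_eq_sum a _ B hB1]
  simp only [L_apply]
  rw [Finset.mul_sum, Finset.mul_sum, ← Finset.sum_add_distrib,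
    ← Finset.sum_sub_distrib]
  apply Finset.sum_congr rfl
  intro x _
  ring

lemma ip_L_nonneg (a : V →₀ ℝ) : 0 ≤ ip a (L H a) := by
  classical
  have := energy H a (a.support ∪ a.support.biUnion H.N) Finset.subset_union_left
    (fun w hw => (Finset.subset_biUnion_of_mem H.N hw).trans Finset.subset_union_right)
  have h2 : 0 ≤ ∑ x ∈ a.support ∪ a.support.biUnion H.N, ∑ w ∈ H.N x, (a x - a w) ^ 2 :=
    Finset.sum_nonneg (fun x _ => Finset.sum_nonneg (fun w _ => sq_nonneg _))
  linarith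

lemma L_inj (a : V →₀ ℝ) (h : ip a (L H a) = 0) : a = 0 := by
  classical
  have he := energy H a (a.support ∪ a.support.biUnion H.N) Finset.subset_union_left
    (fun w hw => (Finset.subset_biUnion_of_mem H.N hw).trans Finset.subset_union_right)
  rw [h, mul_zero] at he
  have h0 := (Finset.sum_eq_zero_iff_of_nonneg (fun x _ => Finset.sum_nonneg
    (fun w _ => sq_nonneg (a x - a w)))).1 he.symm
  have hadj : ∀ x w, H.G.Adj x w → a x = a w := by
    intro x w hxw
    by_cases hx : x ∈ a.support ∪ a.support.biUnion H.N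
    · have h1 := (Finset.sum_eq_zero_iff_of_nonneg (fun w _ => sq_nonneg (a x - a w))).1 (h0 x hx)
      have h2 := h1 w ((H.hN x w).2 hxw)
      have h3 := pow_eq_zero_iff (two_ne_zero) |>.1 h2
      linarith
    · have hx0 : a x = 0 := by
        by_contra hc
        exact hx (Finset.mem_union_left _ (Finsupp.mem_support_iff.2 hc))
      have hw0 : a w = 0 := by
        by_contra hc
        apply hx
        apply Finset.mem_union_right
        rw [Finset.mem_biUnion]
        exact ⟨w, Finsupp.mem_support_iff.2 hc, (H.hN w x).2 hxw.symm⟩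
      rw [hx0, hw0]
  have hwalk : ∀ x y, H.G.Reachable x y → a x = a y := by
    intro x y hxy
    obtain ⟨p⟩ := hxy
    induction p with
    | nil => rfl
    | cons h _ ih => exact (hadj _ _ h).trans ih
  obtain ⟨z, hz⟩ : ∃ z, z ∉ a.support := by
    have := H.inf
    exact Infinite.exists_notMem_finset _
  ext x
  rw [hwalk x z (H.conn.preconnected x z), Finsupp.notMem_support_iff.1 hz]
  rfl

lemma ip_Lpow (j : ℕ) (a b : V →₀ ℝ) : ip ((L H ^ j) a) b = ip a ((L H ^ j) b) := by
  induction j generalizing a b with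
  | zero => simp
  | succ j ih =>
    rw [pow_succ, Module.End.mul_apply, ih, ip_L]
    rw [← Module.End.mul_apply, ← pow_succ', pow_succ, Module.End.mul_apply]

lemma ip_Lpow_nonneg (j : ℕ) (a : V →₀ ℝ) : 0 ≤ ip a ((L H ^ j) a) := by
  rcases Nat.even_or_odd j with ⟨i, rfl⟩ | ⟨i, rfl⟩
  · rw [pow_add, Module.End.mul_apply, ← ip_Lpow]
    exact ip_self_nonneg _
  · rw [show 2 * i + 1 = i + (i + 1) by ring, pow_add, Module.End.mul_apply, ← ip_Lpow, pow_succ',
      Module.End.mul_apply]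
    exact ip_L_nonneg H _

/-- commuting with an automorphism -/
lemma M_map (σ : H.G ≃g H.G) (a : V →₀ ℝ) :
    M H (Finsupp.mapDomain σ a) = Finsupp.mapDomain σ (M H a) := by
  classical
  induction a using Finsupp.induction_linear with
  | zero => simp
  | add a b ha hb => rw [Finsupp.mapDomain_add, map_add, ha, hb, map_add, Finsupp.mapDomain_add]
  | single v r =>
    rw [Finsupp.mapDomain_single, M_single, M_single, Finsupp.mapDomain_smul]
    congr 1
    have e : Finsupp.mapDomain σ (((H.d : ℝ) + 2) • Finsupp.single v (1 : ℝ)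
        - ∑ w ∈ H.N v, Finsupp.single w (1 : ℝ)) =
        ((H.d : ℝ) + 2) • Finsupp.single (σ v) (1 : ℝ)
        - ∑ w ∈ H.N v, Finsupp.single (σ w) (1 : ℝ) := by
      change Finsupp.lmapDomain ℝ ℝ σ _ = _
      rw [map_sub, map_smul, map_sum]
      simp [Finsupp.mapDomain_single]
    rw [e]
    congr 1
    refine (Finset.sum_bij (fun w _ => σ w) ?_ ?_ ?_ ?_).symm
    · intro w hw
      rw [H.hN] at hw ⊢
      exact σ.map_adj_iff.2 hw
    · intro w1 _ w2 _ h
      exact σ.injective h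
    · intro w hw
      refine ⟨σ.symm w, ?_, by simp⟩
      rw [H.hN] at hw ⊢
      have := σ.map_adj_iff (v := v) (w := σ.symm w)
      rw [← this]
      simpa using hw
    · intro w _
      rfl

lemma Lpow_map (σ : H.G ≃g H.G) (j : ℕ) (a : V →₀ ℝ) :
    (L H ^ j) (Finsupp.mapDomain σ a) = Finsupp.mapDomain σ ((L H ^ j) a) := by
  induction j with
  | zero => simp
  | succ j ih =>
    rw [pow_succ', Module.End.mul_apply, Module.End.mul_apply, ih, L_eq, L_eq, M_map]
    change _ = Finsupp.lmapDomain ℝ ℝ σ _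
    rw [map_sub, map_smul]
    rfl

/-- `L^j δ_u` at `v` -/
noncomputable def lj (j : ℕ) (u v : V) : ℝ := (L H ^ j) (Finsupp.single u 1) v

lemma lj_ip (j : ℕ) (u v : V) :
    lj H j u v = ip (Finsupp.single v 1) ((L H ^ j) (Finsupp.single u 1)) := by
  rw [ip_single_left, one_mul]; rfl

lemma lj_symm (j : ℕ) (u v : V) : lj H j u v = lj H j v u := by
  rw [lj_ip, lj_ip, ← ip_Lpow, ip_comm]

lemma lj_diag (j : ℕ) (u v : V) : lj H j u u = lj H j v v := by
  obtain ⟨σ, hσ⟩ := H.trans u v
  unfold lj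
  rw [← hσ]
  have := Lpow_map H σ j (Finsupp.single u 1)
  rw [Finsupp.mapDomain_single] at this
  rw [this, Finsupp.mapDomain_apply σ.injective]

lemma lj_nonneg (j : ℕ) (u : V) : 0 ≤ lj H j u u := by
  rw [lj_ip]; exact ip_Lpow_nonneg H j _

lemma lj_le (j : ℕ) (u v o : V) : |lj H j u v| ≤ lj H j o o := by
  have h1 := ip_Lpow_nonneg H j (Finsupp.single u 1 - Finsupp.single v 1)
  have h2 := ip_Lpow_nonneg H j (Finsupp.single u 1 + Finsupp.single v 1)
  rw [map_sub, ip_sub_left, ip_sub_right, ip_sub_right, ← lj_ip, ← lj_ip, ← lj_ip, ← lj_ip,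
    lj_symm H j v u, lj_diag H j u o, lj_diag H j v o] at h1
  rw [map_add, ip_add_left, ip_add_right, ip_add_right, ← lj_ip, ← lj_ip, ← lj_ip, ← lj_ip,
    lj_symm H j v u, lj_diag H j u o, lj_diag H j v o] at h2
  rw [abs_le]
  constructor <;> linarith

end Pool.Agent.MP_0f2988_co
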