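import Mathlib

set_option autoImplicit false
set_option maxHeartbeats 4000000

namespace Pool.Agent.MP_0f2988_co

/-- sets of naturals with summable reciprocals -/
def Thin (S : Set ℕ) : Prop := Summable (S.indicator (fun n : ℕ => (1 : ℝ) / ((n : ℝ) + 1)))

lemma thin_mono {S T : Set ℕ} (h : S ⊆ T) (hT : Thin T) : Thin S := by
  apply Summable.of_nonneg_of_le _ _ hT
  · intro n
    exact Set.indicator_nonneg (fun n _ => by positivity) n
  · intro n
    exact Set.indicator_le_indicator_of_subset h (fun n => by positivity) n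

lemma thin_union {S T : Set ℕ} (hS : Thin S) (hT : Thin T) : Thin (S ∪ T) := by
  apply Summable.of_nonneg_of_le _ _ (hS.add hT)
  · intro n
    exact Set.indicator_nonneg (fun n _ => by positivity) n
  · intro n
    have h0 : (0 : ℝ) ≤ 1 / ((n : ℝ) + 1) := by positivity
    by_cases h1 : n ∈ S <;> by_cases h2 : n ∈ T <;> simp [h1, h2] <;> positivity

lemma thin_finite {S : Set ℕ} (hS : S.Finite) : Thin S := by
  apply summable_of_finite_support
  apply hS.subset
  intro n hn
  by_contra hc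
  exact hn (Set.indicator_of_notMem hc _)

lemma thin_biUnion {ι : Type*} {s : Set ι} (hs : s.Finite) {S : ι → Set ℕ}
    (h : ∀ i ∈ s, Thin (S i)) : Thin (⋃ i ∈ s, S i) := by
  induction s, hs using Set.Finite.induction_on with
  | empty => simp; exact thin_finite Set.finite_empty
  | @insert a s _ _ ih =>
    rw [Set.biUnion_insert]
    exact thin_union (h a (Set.mem_insert _ _)) (ih (fun i hi => h i (Set.mem_insert_of_mem _ hi)))

lemma thin_exists {S : Set ℕ} (hS : Thin S) : ∃ n, n ∉ S := by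
  by_contra hcon
  push Not at hcon
  have : S = Set.univ := Set.eq_univ_of_forall hcon
  rw [this] at hS
  unfold Thin at hS
  rw [Set.indicator_univ] at hS
  have h2 : Summable (fun n : ℕ => (1 : ℝ) / ((n + 1 : ℕ) : ℝ)) := by
    refine hS.congr ?_
    intro n
    push_cast
    rfl
  rw [summable_nat_add_iff (f := fun n : ℕ => (1 : ℝ) / (n : ℝ)) 1] at h2
  exact Real.not_summable_one_div_natCast h2

/-- exponential families give thin exceptional sets -/
lemma thin_exp {Λ τ C p q : ℝ} {P c : ℕ → ℝ} (hτ : 1 ≤ τ) (hΛ : τ < Λ) (hC : 0 ≤ C)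
    (hP : ∀ n, |P n - p * Λ ^ n| ≤ C * τ ^ n) (hc : ∀ n, |c n - q * Λ ^ n| ≤ C * τ ^ n)
    (hpq : q ≠ 0 ∨ p ≠ 0) :
    Thin {t : ℕ | ∃ n : ℕ, c n ≠ 0 ∧ P n + t * c n = 0} := by
  have hΛ0 : 0 < Λ := by linarith
  -- eventually C τ^n ≤ r Λ^n
  have hev : ∀ r : ℝ, 0 < r → ∃ n0 : ℕ, ∀ n, n0 ≤ n → C * τ ^ n ≤ r * Λ ^ n := by
    intro r hr
    have hlim : Filter.Tendsto (fun n : ℕ => C * (τ / Λ) ^ n) Filter.atTop (nhds (C * 0)) := by
      apply Filter.Tendsto.const_mul
      apply tendsto_pow_atTop_nhds_zero_of_lt_one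
      · positivity
      · rw [div_lt_one hΛ0]; exact hΛ
    rw [mul_zero] at hlim
    obtain ⟨n0, hn0⟩ := Filter.eventually_atTop.1 (hlim.eventually (gt_mem_nhds hr))
    refine ⟨n0, fun n hn => ?_⟩
    have h1 := hn0 n hn
    have h2 : 0 < Λ ^ n := pow_pos hΛ0 n
    rw [div_pow, mul_div_assoc', div_lt_iff₀ h2] at h1
    exact h1.le
  -- each n contributes at most one t
  have huniq : ∀ n : ℕ, {t : ℕ | c n ≠ 0 ∧ P n + t * c n = 0}.Finite := by
    intro n
    apply Set.Subsingleton.finite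
    rintro t ⟨h1, h2⟩ t' ⟨_, h3⟩
    have h4 : ((t : ℝ) - t') * c n = 0 := by linarith
    rcases mul_eq_zero.1 h4 with h | h
    · have : (t : ℝ) = t' := by linarith
      exact_mod_cast this
    · exact absurd h h1
  have hsmall : ∀ n0 : ℕ, Thin {t : ℕ | ∃ n : ℕ, n < n0 ∧ c n ≠ 0 ∧ P n + t * c n = 0} := by
    intro n0
    apply thin_finite
    have : {t : ℕ | ∃ n : ℕ, n < n0 ∧ c n ≠ 0 ∧ P n + t * c n = 0} ⊆
        ⋃ n ∈ Set.Iio n0, {t : ℕ | c n ≠ 0 ∧ P n + t * c n = 0} := by
      rintro t ⟨n, h1, h2⟩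
      simp only [Set.mem_iUnion]
      exact ⟨n, h1, h2⟩
    exact ((Set.finite_Iio n0).biUnion (fun n _ => huniq n)).subset this
  by_cases hq : q = 0
  · have hp : p ≠ 0 := by
      rcases hpq with h | h
      · exact absurd hq h
      · exact h
    have hp0 : 0 < |p| := abs_pos.2 hp
    obtain ⟨n0, hn0⟩ := hev (|p| / 2) (by linarith)
    have hsplit : {t : ℕ | ∃ n : ℕ, c n ≠ 0 ∧ P n + t * c n = 0} ⊆
        {t : ℕ | ∃ n : ℕ, n < n0 ∧ c n ≠ 0 ∧ P n + t * c n = 0} ∪
        {t : ℕ | ∃ n : ℕ, n0 ≤ n ∧ c n ≠ 0 ∧ P n + t * c n = 0} := by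
      rintro t ⟨n, h1, h2⟩
      by_cases h3 : n < n0
      · exact Or.inl ⟨n, h3, h1, h2⟩
      · exact Or.inr ⟨n, by omega, h1, h2⟩
    refine thin_mono hsplit (thin_union (hsmall n0) ?_)
    set S : Set ℕ := {t : ℕ | ∃ n : ℕ, n0 ≤ n ∧ c n ≠ 0 ∧ P n + t * c n = 0} with hS
    unfold Thin
    rw [← summable_subtype_iff_indicator]
    choose nf hnf using fun t : S => t.2
    have hinj : Function.Injective nf := by
      intro t t' htt
      obtain ⟨_, h1, h2⟩ := hnf t
      obtain ⟨_, _, h3⟩ := hnf t'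
      rw [← htt] at h3
      have h4 : (((t : ℕ) : ℝ) - ((t' : ℕ) : ℝ)) * c (nf t) = 0 := by linarith
      rcases mul_eq_zero.1 h4 with h | h
      · have : ((t : ℕ) : ℝ) = ((t' : ℕ) : ℝ) := by linarith
        exact Subtype.ext (by exact_mod_cast this)
      · exact absurd h h1
    have hg : Summable (fun n : ℕ => (2 * C / |p|) * (τ / Λ) ^ n) := by
      apply Summable.mul_left
      apply summable_geometric_of_lt_one
      · positivity
      · rw [div_lt_one hΛ0]; exact hΛ
    apply Summable.of_nonneg_of_le _ _ (hg.comp_injective hinj)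
    · intro t
      simp only [Function.comp]
      positivity
    · intro t
      simp only [Function.comp]
      obtain ⟨h0, h1, h2⟩ := hnf t
      set n := nf t
      have a1 := hn0 n h0
      have a2 := hP n
      have a3 := hc n
      rw [hq, zero_mul, sub_zero] at a3
      have h3 : 0 < Λ ^ n := pow_pos hΛ0 n
      have h4 : 0 < τ ^ n := pow_pos (by linarith) n
      -- |P n| ≥ |p| Λ^n / 2
      have a4 : |p| * Λ ^ n / 2 ≤ |P n| := by
        have b1 : |p * Λ ^ n| = |p| * Λ ^ n := by rw [abs_mul, abs_of_pos h3]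
        have b2 : |p * Λ ^ n| ≤ |P n| + |P n - p * Λ ^ n| := by
          have := abs_sub_abs_le_abs_sub (p * Λ ^ n) (P n)
          rw [abs_sub_comm] at this
          linarith
        linarith
      have a5 : |P n| = (t : ℕ) * |c n| := by
        have : P n = - ((t : ℕ) * c n) := by linarith
        rw [this, abs_neg, abs_mul, Nat.abs_cast]
      have ht : (0 : ℝ) ≤ ((t : ℕ) : ℝ) := Nat.cast_nonneg _
      have a6 : |P n| ≤ (t : ℕ) * (C * τ ^ n) := by
        rw [a5]; exact mul_le_mul_of_nonneg_left a3 ht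
      have a7 : |p| * Λ ^ n ≤ 2 * C * τ ^ n * (((t : ℕ) : ℝ) + 1) := by
        have : 0 ≤ C * τ ^ n := by positivity
        nlinarith
      rw [div_pow, one_div, inv_le_iff_one_le_mul₀ (by positivity)]
      have e : 2 * C / |p| * (τ ^ n / Λ ^ n) * (((t : ℕ) : ℝ) + 1) =
          (2 * C * τ ^ n * (((t : ℕ) : ℝ) + 1)) / (|p| * Λ ^ n) := by
        field_simp
      rw [e, le_div_iff₀ (by positivity)]
      linarith
  · have hq0 : 0 < |q| := abs_pos.2 hq
    obtain ⟨n0, hn0⟩ := hev (|q| / 2) (by linarith)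
    obtain ⟨K, hK⟩ := exists_nat_ge (2 * (|p| + C) / |q|)
    have hsplit : {t : ℕ | ∃ n : ℕ, c n ≠ 0 ∧ P n + t * c n = 0} ⊆
        {t : ℕ | ∃ n : ℕ, n < n0 ∧ c n ≠ 0 ∧ P n + t * c n = 0} ∪ Set.Iic K := by
      rintro t ⟨n, h1, h2⟩
      by_cases h3 : n < n0
      · exact Or.inl ⟨n, h3, h1, h2⟩
      · right
        have a1 := hn0 n (by omega)
        have a2 := hP n
        have a3 := hc n
        have h3 : 0 < Λ ^ n := pow_pos hΛ0 n
        have h4 : τ ^ n ≤ Λ ^ n := pow_le_pow_left₀ (by linarith) hΛ.le n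
        have a4 : |q| * Λ ^ n / 2 ≤ |c n| := by
          have b1 : |q * Λ ^ n| = |q| * Λ ^ n := by rw [abs_mul, abs_of_pos h3]
          have b2 : |q * Λ ^ n| ≤ |c n| + |c n - q * Λ ^ n| := by
            have := abs_sub_abs_le_abs_sub (q * Λ ^ n) (c n)
            rw [abs_sub_comm] at this
            linarith
          linarith
        have a5 : |P n| ≤ (|p| + C) * Λ ^ n := by
          have b1 : |p * Λ ^ n| = |p| * Λ ^ n := by rw [abs_mul, abs_of_pos h3]
          have b2 : |P n| ≤ |p * Λ ^ n| + |P n - p * Λ ^ n| := by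
            have := abs_sub_abs_le_abs_sub (P n) (p * Λ ^ n)
            linarith
          have b3 : C * τ ^ n ≤ C * Λ ^ n := mul_le_mul_of_nonneg_left h4 hC
          linarith
        have a6 : |P n| = (t : ℝ) * |c n| := by
          have : P n = - ((t : ℝ) * c n) := by linarith
          rw [this, abs_neg, abs_mul, Nat.abs_cast]
        have ht : (0 : ℝ) ≤ (t : ℝ) := Nat.cast_nonneg _
        have a7 : (t : ℝ) * (|q| * Λ ^ n / 2) ≤ (|p| + C) * Λ ^ n := by
          rw [a6] at a5
          exact (mul_le_mul_of_nonneg_left a4 ht).trans a5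
        have a8 : (t : ℝ) * |q| ≤ 2 * (|p| + C) := by
          have : (t : ℝ) * |q| * Λ ^ n ≤ 2 * (|p| + C) * Λ ^ n := by linarith
          exact le_of_mul_le_mul_right this h3
        have a9 : (t : ℝ) ≤ 2 * (|p| + C) / |q| := by
          rw [le_div_iff₀ hq0]; exact a8
        exact_mod_cast a9.trans hK
    exact thin_mono hsplit (thin_union (hsmall n0) (thin_finite (Set.finite_Iic K)))

end Pool.Agent.MP_0f2988_co
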