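import Pool.Agent.Lib.MP_0f2988_co.Spec
import Pool.Agent.Lib.MP_0f2988_co.Thin

set_option autoImplicit false
set_option maxHeartbeats 4000000

namespace Pool.Agent.MP_0f2988_co

universe u

variable {V : Type u} (H : RG V)

/-- spectral data of an algebraic pair -/
structure SD (u u' : V) where
  W : Finset V
  Λ : ℝ
  τ : ℝ
  C : ℝ
  q : V → ℝ
  hW : ∀ n : ℤ, (Ko H n (Finsupp.single u 1 - Finsupp.single u' 1)).support ⊆ W
  hq : ∀ x, x ∉ W → q x = 0
  h1 : 1 ≤ τ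
  h2 : τ < Λ
  h3 : 0 ≤ C
  h4 : ∀ (n : ℕ) (x : V),
    |Ko H n (Finsupp.single u 1 - Finsupp.single u' 1) x - q x * Λ ^ n| ≤ C * τ ^ n
  h5 : q u ≠ 0
  h6 : q u' ≠ 0

lemma SD_nonempty {u u' : V} (huu : u ≠ u')
    (hh : Alg H (Finsupp.single u 1 - Finsupp.single u' 1)) : Nonempty (SD H u u') := by
  obtain ⟨W, Λ, τ, C, q, a, b, c, d, e, f, g, h⟩ := spec H huu hh
  exact ⟨⟨W, Λ, τ, C, q, a, b, c, d, e, f, g, h⟩⟩

noncomputable def sd {u u' : V} (huu : u ≠ u')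
    (hh : Alg H (Finsupp.single u 1 - Finsupp.single u' 1)) : SD H u u' :=
  Classical.choice (SD_nonempty H huu hh)

/-- difference form -/
noncomputable def D (u : V) (n : ℤ) (u' : V) (n' : ℤ) (f g : V → ℝ) : ℝ :=
  ev (za H u n u' n') g - ev (za H u (n - 1) u' (n' - 1)) f

lemma ev_right (a : V →₀ ℝ) (g g' : V → ℝ) (t : ℝ) :
    ev a (fun x => g x + t * g' x) = ev a g + t * ev a g' := by
  rw [ev_eq_sum a _ a.support (le_refl _), ev_eq_sum a g a.support (le_refl _),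
    ev_eq_sum a g' a.support (le_refl _), Finset.mul_sum, ← Finset.sum_add_distrib]
  exact Finset.sum_congr rfl (fun x _ => by ring)

lemma D_lin (u : V) (n : ℤ) (u' : V) (n' : ℤ) (f g f' g' : V → ℝ) (t : ℝ) :
    D H u n u' n' (fun x => f x + t * f' x) (fun x => g x + t * g' x) =
      D H u n u' n' f g + t * D H u n u' n' f' g' := by
  unfold D
  rw [ev_right, ev_right]
  ring

namespace SD

variable {H} {u u' : V} (S : SD H u u')

noncomputable def Q (g : V → ℝ) : ℝ := ∑ x ∈ S.W, S.q x * g x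

noncomputable def nm (g : V → ℝ) : ℝ := S.C * ∑ x ∈ S.W, |g x|

lemma nm_nonneg (g : V → ℝ) : 0 ≤ S.nm g :=
  mul_nonneg S.h3 (Finset.sum_nonneg (fun _ _ => abs_nonneg _))

lemma Q_lin (g g' : V → ℝ) (t : ℝ) : S.Q (fun x => g x + t * g' x) = S.Q g + t * S.Q g' := by
  unfold Q
  rw [Finset.mul_sum, ← Finset.sum_add_distrib]
  exact Finset.sum_congr rfl (fun x _ => by ring)

lemma ev_bound (g : V → ℝ) (n : ℕ) :
    |ev (Ko H n (Finsupp.single u 1 - Finsupp.single u' 1)) g - S.Q g * S.Λ ^ n| ≤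
      S.nm g * S.τ ^ n := by
  rw [ev_eq_sum _ g S.W (S.hW n)]
  unfold Q nm
  rw [Finset.sum_mul, ← Finset.sum_sub_distrib]
  refine (Finset.abs_sum_le_sum_abs _ _).trans ?_
  rw [Finset.mul_sum, Finset.sum_mul]
  apply Finset.sum_le_sum
  intro x _
  have h := S.h4 n x
  have e : Ko H n (Finsupp.single u 1 - Finsupp.single u' 1) x * g x - S.q x * g x * S.Λ ^ n =
      (Ko H n (Finsupp.single u 1 - Finsupp.single u' 1) x - S.q x * S.Λ ^ n) * g x := by ring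
  rw [e, abs_mul]
  calc _ ≤ (S.C * S.τ ^ n) * |g x| := mul_le_mul_of_nonneg_right h (abs_nonneg _)
    _ = _ := by ring

noncomputable def K (f g : V → ℝ) : ℝ := (S.nm f + S.nm g) * (1 + S.τ)

lemma K_nonneg (f g : V → ℝ) : 0 ≤ S.K f g := by
  unfold K
  have := S.nm_nonneg f
  have := S.nm_nonneg g
  have := S.h1
  positivity

lemma D_eq (n : ℤ) (f g : V → ℝ) : D H u n u' n f g =
    ev (Ko H n (Finsupp.single u 1 - Finsupp.single u' 1)) g -
    ev (Ko H (n - 1) (Finsupp.single u 1 - Finsupp.single u' 1)) f := by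
  unfold D
  rw [diff_Ko, diff_Ko]

lemma D_pos (f g : V → ℝ) (m : ℕ) :
    |D H u ((m : ℤ) + 1) u' ((m : ℤ) + 1) f g - (S.Λ * S.Q g - S.Q f) * S.Λ ^ m| ≤
      S.K f g * S.τ ^ m := by
  rw [D_eq, add_sub_cancel_right]
  have h1 := S.ev_bound g (m + 1)
  have h2 := S.ev_bound f m
  rw [Nat.cast_add, Nat.cast_one] at h1
  have e : ∀ a b : ℝ, a - b - (S.Λ * S.Q g - S.Q f) * S.Λ ^ m =
      (a - S.Q g * S.Λ ^ (m + 1)) - (b - S.Q f * S.Λ ^ m) := by
    intro a b; ring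
  rw [e]
  refine (abs_sub _ _).trans ?_
  have h3 := S.nm_nonneg f
  have h4 := S.nm_nonneg g
  have h5 := S.h1
  have h6 : 0 < S.τ ^ m := pow_pos (by linarith) m
  have e2 : S.K f g * S.τ ^ m = S.nm g * S.τ ^ (m + 1) + S.nm f * S.τ ^ m +
      (S.nm g * S.τ ^ m + S.nm f * S.τ * S.τ ^ m) := by
    unfold K; ring
  rw [e2]
  have h7 : 0 ≤ S.nm g * S.τ ^ m + S.nm f * S.τ * S.τ ^ m := by positivity
  linarith

lemma D_neg (f g : V → ℝ) (m : ℕ) :
    |D H u (-(m : ℤ)) u' (-(m : ℤ)) f g - (S.Λ * S.Q f - S.Q g) * S.Λ ^ m| ≤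
      S.K f g * S.τ ^ m := by
  rw [D_eq, show -(m : ℤ) - 1 = -((m + 1 : ℕ) : ℤ) by push_cast; ring, Ko_neg, Ko_neg,
    LinearMap.neg_apply, LinearMap.neg_apply, ev_neg, ev_neg]
  have h1 := S.ev_bound f (m + 1)
  have h2 := S.ev_bound g m
  have e : ∀ a b : ℝ, -a - -b - (S.Λ * S.Q f - S.Q g) * S.Λ ^ m =
      (b - S.Q f * S.Λ ^ (m + 1)) - (a - S.Q g * S.Λ ^ m) := by
    intro a b; ring
  rw [e]
  refine (abs_sub _ _).trans ?_
  have h3 := S.nm_nonneg f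
  have h4 := S.nm_nonneg g
  have h5 := S.h1
  have h6 : 0 < S.τ ^ m := pow_pos (by linarith) m
  have e2 : S.K f g * S.τ ^ m = S.nm f * S.τ ^ (m + 1) + S.nm g * S.τ ^ m +
      (S.nm f * S.τ ^ m + S.nm g * S.τ * S.τ ^ m) := by
    unfold K; ring
  rw [e2]
  have h7 : 0 ≤ S.nm f * S.τ ^ m + S.nm g * S.τ * S.τ ^ m := by positivity
  linarith

end SD

lemma alg_thin {u u' : V} (S : SD H u u') (f g f' g' : V → ℝ)
    (h1 : S.Λ * S.Q g' - S.Q f' ≠ 0 ∨ S.Λ * S.Q g - S.Q f ≠ 0)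
    (h2 : S.Λ * S.Q f' - S.Q g' ≠ 0 ∨ S.Λ * S.Q f - S.Q g ≠ 0) :
    Thin {t : ℕ | ∃ n : ℤ, D H u n u' n f' g' ≠ 0 ∧
      D H u n u' n f g + t * D H u n u' n f' g' = 0} := by
  have hK0 : 0 ≤ S.K f g + S.K f' g' := add_nonneg (S.K_nonneg f g) (S.K_nonneg f' g')
  have hle1 : ∀ m : ℕ, S.K f g * S.τ ^ m ≤ (S.K f g + S.K f' g') * S.τ ^ m := by
    intro m
    apply mul_le_mul_of_nonneg_right _ (pow_nonneg (by linarith [S.h1]) m)
    linarith [S.K_nonneg f' g']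
  have hle2 : ∀ m : ℕ, S.K f' g' * S.τ ^ m ≤ (S.K f g + S.K f' g') * S.τ ^ m := by
    intro m
    apply mul_le_mul_of_nonneg_right _ (pow_nonneg (by linarith [S.h1]) m)
    linarith [S.K_nonneg f g]
  have t1 := thin_exp S.h1 S.h2 hK0 (fun m => (S.D_pos f g m).trans (hle1 m))
    (fun m => (S.D_pos f' g' m).trans (hle2 m)) h1
  have t2 := thin_exp S.h1 S.h2 hK0 (fun m => (S.D_neg f g m).trans (hle1 m))
    (fun m => (S.D_neg f' g' m).trans (hle2 m)) h2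
  apply thin_mono _ (thin_union t1 t2)
  rintro t ⟨n, hn1, hn2⟩
  rcases le_or_gt n 0 with hn | hn
  · right
    obtain ⟨m, hm⟩ : ∃ m : ℕ, n = -(m : ℤ) := ⟨n.natAbs, by omega⟩
    subst hm
    exact ⟨m, hn1, hn2⟩
  · left
    obtain ⟨m, hm⟩ : ∃ m : ℕ, n = (m : ℤ) + 1 := ⟨(n - 1).natAbs, by omega⟩
    subst hm
    exact ⟨m, hn1, hn2⟩

/-- all determined pairs are in a finite set -/
lemma finite_all (W : Finset V) : ∃ (B : Finset V) (b : ℕ), W ⊆ B ∧
    ∀ u n u' n', (u, n) ≠ (u', n') → ¬ Exc H u n u' n' →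
      (za H u n u' n').support ⊆ W → (za H u (n - 1) u' (n' - 1)).support ⊆ W →
      u ∈ B ∧ u' ∈ B ∧ n.natAbs ≤ b ∧ n'.natAbs ≤ b := by
  classical
  obtain ⟨B, b, hWB, hB⟩ := finite_pairs H W
  refine ⟨B, b + 1, hWB, ?_⟩
  intro u n u' n' hne hexc h1 h2
  by_cases ha : n ≠ 0 ∧ n' ≠ 0
  · obtain ⟨a1, a2, a3, a4⟩ := hB u n u' n' ha.1 ha.2 hne hexc h1
    exact ⟨a1, a2, by omega, by omega⟩
  by_cases hb : n - 1 ≠ 0 ∧ n' - 1 ≠ 0
  · have hne' : (u, n - 1) ≠ (u', n' - 1) := by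
      intro h
      apply hne
      rw [Prod.mk.injEq] at h ⊢
      exact ⟨h.1, by linarith [h.2]⟩
    have hexc' : ¬ Exc H u (n - 1) u' (n' - 1) := by
      rintro ⟨h3, h4⟩
      exact hexc ⟨by linarith, h4⟩
    obtain ⟨a1, a2, a3, a4⟩ := hB u (n - 1) u' (n' - 1) hb.1 hb.2 hne' hexc' h2
    exact ⟨a1, a2, by omega, by omega⟩
  have hcase : (n = 0 ∧ n' = 1) ∨ (n = 1 ∧ n' = 0) := by
    by_contra hcon
    apply hb
    constructor
    · intro h
      by_cases hn' : n' = 0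
      · exact hcon (Or.inr ⟨by linarith, hn'⟩)
      · exact ha ⟨by omega, hn'⟩
    · intro h
      by_cases hn : n = 0
      · exact hcon (Or.inl ⟨hn, by linarith⟩)
      · exact ha ⟨hn, by omega⟩
  rcases hcase with ⟨rfl, rfl⟩ | ⟨rfl, rfl⟩
  · refine ⟨hWB (h2 ?_), hWB (h1 ?_), by simp, by simp⟩
    · rw [Finsupp.mem_support_iff, za_apply]
      rw [show (0 : ℤ) - 1 = -1 by norm_num, show (1 : ℤ) - 1 = 0 by norm_num, k_neg, k_zero,
        k_one]
      simp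
    · rw [Finsupp.mem_support_iff, za_apply, k_zero, k_one]
      simp
  · refine ⟨hWB (h1 ?_), hWB (h2 ?_), by simp, by simp⟩
    · rw [Finsupp.mem_support_iff, za_apply, k_zero, k_one]
      simp
    · rw [Finsupp.mem_support_iff, za_apply]
      rw [show (0 : ℤ) - 1 = -1 by norm_num, show (1 : ℤ) - 1 = 0 by norm_num, k_neg, k_zero,
        k_one]
      simp

def pairs (W : Finset V) : Set (V × ℤ × V × ℤ) :=
  {P | (P.1, P.2.1) ≠ (P.2.2.1, P.2.2.2) ∧ ¬ Exc H P.1 P.2.1 P.2.2.1 P.2.2.2 ∧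
    (za H P.1 P.2.1 P.2.2.1 P.2.2.2).support ⊆ W ∧
    (za H P.1 (P.2.1 - 1) P.2.2.1 (P.2.2.2 - 1)).support ⊆ W}

lemma pairs_finite (W : Finset V) : (pairs H W).Finite := by
  obtain ⟨B, b, _, hB⟩ := finite_all H W
  apply ((B.finite_toSet.prod ((Set.finite_Icc (-(b : ℤ)) b).prod
    (B.finite_toSet.prod (Set.finite_Icc (-(b : ℤ)) b))))).subset
  rintro ⟨u, n, u', n'⟩ ⟨h1, h2, h3, h4⟩
  obtain ⟨a1, a2, a3, a4⟩ := hB u n u' n' h1 h2 h3 h4
  simp only [Set.mem_prod, Finset.mem_coe, Set.mem_Icc]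
  refine ⟨a1, ⟨by omega, by omega⟩, a2, by omega, by omega⟩

lemma thin_lin (a b : ℝ) (h : b ≠ 0 ∨ a ≠ 0) : Thin {t : ℕ | a + t * b = 0} := by
  apply thin_finite
  by_cases hb : b = 0
  · have ha : a ≠ 0 := by
      rcases h with h | h
      · exact absurd hb h
      · exact h
    have : {t : ℕ | a + t * b = 0} = ∅ := by
      ext t
      simp only [Set.mem_ofPred_eq, Set.mem_empty_iff_false, iff_false]
      rw [hb, mul_zero, add_zero]
      exact ha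
    rw [this]
    exact Set.finite_empty
  · apply Set.Subsingleton.finite
    intro s hs t ht
    simp only [Set.mem_ofPred_eq] at hs ht
    have h2 : ((s : ℝ) - t) * b = 0 := by linarith
    rcases mul_eq_zero.1 h2 with h3 | h3
    · exact_mod_cast (sub_eq_zero.1 h3)
    · exact absurd h3 hb

lemma choose_t (Ps : Set (V × ℤ × V × ℤ)) (hPs : Ps.Finite) (W' : Finset V)
    (f g f' g' : V → ℝ)
    (hL : ∀ u u' (huu : u ≠ u') (hh : Alg H (Finsupp.single u 1 - Finsupp.single u' 1)),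
      u ∈ W' → u' ∈ W' →
      ((sd H huu hh).Λ * (sd H huu hh).Q g' - (sd H huu hh).Q f' ≠ 0 ∨
        (sd H huu hh).Λ * (sd H huu hh).Q g - (sd H huu hh).Q f ≠ 0) ∧
      ((sd H huu hh).Λ * (sd H huu hh).Q f' - (sd H huu hh).Q g' ≠ 0 ∨
        (sd H huu hh).Λ * (sd H huu hh).Q f - (sd H huu hh).Q g ≠ 0)) :
    ∃ t : ℕ, (∀ P ∈ Ps, D H P.1 P.2.1 P.2.2.1 P.2.2.2 f' g' ≠ 0 →
        D H P.1 P.2.1 P.2.2.1 P.2.2.2 (fun x => f x + t * f' x) (fun x => g x + t * g' x) ≠ 0) ∧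
      (∀ u u' (huu : u ≠ u') (hh : Alg H (Finsupp.single u 1 - Finsupp.single u' 1)),
        u ∈ W' → u' ∈ W' →
        (∀ n, D H u n u' n f' g' ≠ 0 →
          D H u n u' n (fun x => f x + t * f' x) (fun x => g x + t * g' x) ≠ 0) ∧
        (sd H huu hh).Λ * (sd H huu hh).Q (fun x => g x + t * g' x) -
          (sd H huu hh).Q (fun x => f x + t * f' x) ≠ 0 ∧
        (sd H huu hh).Λ * (sd H huu hh).Q (fun x => f x + t * f' x) -
          (sd H huu hh).Q (fun x => g x + t * g' x) ≠ 0) := by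
  classical
  have T1 : Thin (⋃ P ∈ Ps, {t : ℕ | D H P.1 P.2.1 P.2.2.1 P.2.2.2 f' g' ≠ 0 ∧
      D H P.1 P.2.1 P.2.2.1 P.2.2.2 f g + t * D H P.1 P.2.1 P.2.2.1 P.2.2.2 f' g' = 0}) := by
    apply thin_biUnion hPs
    intro P _
    by_cases h0 : D H P.1 P.2.1 P.2.2.1 P.2.2.2 f' g' = 0
    · apply thin_mono _ (thin_finite Set.finite_empty)
      rintro t ⟨h1, _⟩
      exact absurd h0 h1
    · apply thin_mono _ (thin_lin (D H P.1 P.2.1 P.2.2.1 P.2.2.2 f g)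
        (D H P.1 P.2.1 P.2.2.1 P.2.2.2 f' g') (Or.inl h0))
      rintro t ⟨_, h1⟩
      exact h1
  have T2 : Thin (⋃ p ∈ ((W' ×ˢ W' : Finset (V × V)) : Set (V × V)),
      {t : ℕ | ∃ (huu : p.1 ≠ p.2) (hh : Alg H (Finsupp.single p.1 1 - Finsupp.single p.2 1)),
        (∃ n : ℤ, D H p.1 n p.2 n f' g' ≠ 0 ∧
          D H p.1 n p.2 n f g + t * D H p.1 n p.2 n f' g' = 0) ∨
        ((sd H huu hh).Λ * (sd H huu hh).Q g - (sd H huu hh).Q f) +
          t * ((sd H huu hh).Λ * (sd H huu hh).Q g' - (sd H huu hh).Q f') = 0 ∨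
        ((sd H huu hh).Λ * (sd H huu hh).Q f - (sd H huu hh).Q g) +
          t * ((sd H huu hh).Λ * (sd H huu hh).Q f' - (sd H huu hh).Q g') = 0}) := by
    apply thin_biUnion (Finset.finite_toSet _)
    rintro ⟨u, u'⟩ hp
    simp only [Finset.mem_coe, Finset.mem_product] at hp
    by_cases huu : u ≠ u'
    · by_cases hh : Alg H (Finsupp.single u 1 - Finsupp.single u' 1)
      · obtain ⟨c1, c2⟩ := hL u u' huu hh hp.1 hp.2
        apply thin_mono _ (thin_union (alg_thin H (sd H huu hh) f g f' g' c1 c2)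
          (thin_union (thin_lin _ _ c1) (thin_lin _ _ c2)))
        rintro t ⟨_, _, h | h | h⟩
        · left; exact h
        · right; left; exact h
        · right; right; exact h
      · apply thin_mono _ (thin_finite Set.finite_empty)
        rintro t ⟨_, h, _⟩
        exact absurd h hh
    · apply thin_mono _ (thin_finite Set.finite_empty)
      rintro t ⟨h, _⟩
      exact absurd h huu
  obtain ⟨t, ht⟩ := thin_exists (thin_union T1 T2)
  refine ⟨t, ?_, ?_⟩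
  · intro P hP h0 h1
    apply ht
    left
    rw [D_lin] at h1
    exact Set.mem_biUnion hP ⟨h0, h1⟩
  · intro u u' huu hh hu hu'
    have hmem : (u, u') ∈ ((W' ×ˢ W' : Finset (V × V)) : Set (V × V)) := by
      simp only [Finset.mem_coe, Finset.mem_product]
      exact ⟨hu, hu'⟩
    refine ⟨?_, ?_, ?_⟩
    · intro n h0 h1
      apply ht
      right
      rw [D_lin] at h1
      exact Set.mem_biUnion hmem ⟨huu, hh, Or.inl ⟨n, h0, h1⟩⟩
    · intro h1
      apply ht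
      right
      rw [SD.Q_lin, SD.Q_lin] at h1
      exact Set.mem_biUnion hmem ⟨huu, hh, Or.inr (Or.inl (by linarith))⟩
    · intro h1
      apply ht
      right
      rw [SD.Q_lin, SD.Q_lin] at h1
      exact Set.mem_biUnion hmem ⟨huu, hh, Or.inr (Or.inr (by linarith))⟩

end Pool.Agent.MP_0f2988_co
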