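import Pool.Agent.Lib.MP_0f2988_co.Kern

set_option autoImplicit false
set_option maxHeartbeats 4000000

namespace Pool.Agent.MP_0f2988_co

open Polynomial

universe u

variable {V : Type u} (H : RG V)

/-- `h` is annihilated by a nonzero polynomial in `M` -/
def Alg (h : V →₀ ℝ) : Prop := ∃ p : ℝ[X], p ≠ 0 ∧ aeval (M H) p h = 0

lemma Kp_degree (n : ℕ) : (Kp ((n : ℤ) + 1)).degree = n ∧ (Kp ((n : ℤ) + 2)).degree = (n + 1 : ℕ) := by
  induction n with
  | zero =>
    have e1 : Kp ((0 : ℕ) + 1 : ℤ) = 1 := by simpa using Kp_one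
    have e2 : Kp ((0 : ℕ) + 2 : ℤ) = X := by
      have := Kp_succ 1
      rw [Kp_one] at this
      simp only [show (1 : ℤ) - 1 = 0 by norm_num, Kp_zero] at this
      have h2 : ((0 : ℕ) + 2 : ℤ) = 1 + 1 := by norm_num
      rw [h2, this]; ring
    rw [e1, e2]
    simp
  | succ n ih =>
    obtain ⟨h1, h2⟩ := ih
    refine ⟨?_, ?_⟩
    · rw [show ((n + 1 : ℕ) : ℤ) + 1 = (n : ℤ) + 2 by push_cast; ring]
      exact h2
    · rw [show ((n + 1 : ℕ) : ℤ) + 2 = ((n : ℤ) + 2) + 1 by push_cast; ring, Kp_succ,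
        show (n : ℤ) + 2 - 1 = (n : ℤ) + 1 by ring]
      have h3 : (X * Kp ((n : ℤ) + 2)).degree = ((n + 2 : ℕ) : WithBot ℕ) := by
        rw [degree_mul, degree_X, h2]
        change ((1 : ℕ) : WithBot ℕ) + ((n + 1 : ℕ) : WithBot ℕ) = _
        rw [← Nat.cast_add, show 1 + (n + 1) = n + 2 by omega]
      rw [degree_sub_eq_left_of_degree_lt]
      · rw [h3]
      · rw [h3, h1]
        norm_cast
        omega

noncomputable def Kseq : Polynomial.Sequence ℝ where
  elems' i := Kp ((i : ℤ) + 1)
  degree_eq' i := (Kp_degree i).1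

lemma supp_finite (h : V →₀ ℝ) (hh : ¬ Alg H h) (W : Finset V) :
    ∃ b : ℕ, ∀ N : ℕ, (Ko H N h).support ⊆ W → N ≤ b := by
  by_contra hcon
  push Not at hcon
  -- the set of N with support inside W is infinite
  let S : Set ℕ := {i | (Ko H ((i : ℤ) + 1) h).support ⊆ W}
  have hS : S.Infinite := by
    rw [Set.infinite_iff_exists_gt] 
    intro a
    obtain ⟨N, hN1, hN2⟩ := hcon (a + 1)
    refine ⟨N - 1, ?_, by omega⟩
    show (Ko H (((N - 1 : ℕ) : ℤ) + 1) h).support ⊆ W
    have : (((N - 1 : ℕ) : ℤ) + 1) = N := by omega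
    rw [this]
    exact hN1
  let ψ : ℝ[X] →ₗ[ℝ] (V →₀ ℝ) :=
    { toFun := fun p => aeval (M H) p h
      map_add' := by intro p q; rw [map_add]; rfl
      map_smul' := by intro r p; rw [map_smul]; rfl }
  have hker : LinearMap.ker ψ = ⊥ := by
    rw [LinearMap.ker_eq_bot']
    intro p hp
    by_contra hp0
    exact hh ⟨p, hp0, hp⟩
  have hli : LinearIndependent ℝ (fun i : S => ψ (Kseq i)) := by
    have h1 := (Kseq.linearIndependent).map' ψ hker
    exact h1.comp (fun i : S => (i : ℕ)) Subtype.val_injective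
  have hfin : Finite S := by
    refine hli.finite_of_le_span_finite _ ((fun v => Finsupp.single v (1 : ℝ)) '' (W : Set V)) ?_
    rintro _ ⟨i, rfl⟩
    rw [← Finsupp.supported_eq_span_single]
    have := i.2
    exact this
  exact hS (Set.toFinite S)

/-- sum functional -/
lemma sum_M (a : V →₀ ℝ) : ev (M H a) (fun _ => 1) = 2 * ev a (fun _ => 1) := by
  induction a using Finsupp.induction_linear with
  | zero => simp [ev_zero]
  | add a b ha hb => rw [map_add, ev_add, ev_add, ha, hb]; ring
  | single v r =>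
    rw [M_single, ev_smul, ev_sub, ev_smul, ev_single, ev_sum, ev_single]
    simp only [ev_single]
    rw [Finset.sum_const, H.hd, nsmul_eq_mul]
    ring

lemma sum_aeval (p : ℝ[X]) (a : V →₀ ℝ) :
    ev (aeval (M H) p a) (fun _ => 1) = p.eval 2 * ev a (fun _ => 1) := by
  induction p using Polynomial.induction_on' with
  | add p q hp hq => rw [map_add, LinearMap.add_apply, ev_add, hp, hq, eval_add]; ring
  | monomial n r =>
    rw [aeval_monomial, eval_monomial]
    have : ∀ n : ℕ, ev ((M H ^ n) a) (fun _ => 1) = 2 ^ n * ev a (fun _ => 1) := by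
      intro n
      induction n with
      | zero => simp
      | succ n ih =>
        rw [pow_succ', Module.End.mul_apply, sum_M, ih]
        ring
    rw [Module.End.mul_apply, Module.algebraMap_end_apply, ev_smul, this]
    ring

lemma L_ker (a : V →₀ ℝ) (h : L H a = 0) : a = 0 := by
  apply L_inj H a
  rw [h]
  rw [ip_comm]
  exact ev_zero _

lemma not_alg_of_sum {h : V →₀ ℝ} (hs : ev h (fun _ => 1) ≠ 0) : ¬ Alg H h := by
  have key : ∀ n : ℕ, ∀ p : ℝ[X], p.natDegree = n → p ≠ 0 → aeval (M H) p h = 0 → False := by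
    intro n
    induction n with
    | zero =>
      intro p hp hp0 hph
      have := sum_aeval H p h
      rw [hph, ev_zero] at this
      have h2 : p.eval 2 = 0 := by
        rcases mul_eq_zero.1 this.symm with h | h
        · exact h
        · exact absurd h hs
      rw [eq_C_of_natDegree_eq_zero hp] at h2 hp0
      rw [eval_C] at h2
      rw [h2] at hp0
      simp at hp0
    | succ n ih =>
      intro p hp hp0 hph
      have := sum_aeval H p h
      rw [hph, ev_zero] at this
      have h2 : p.eval 2 = 0 := by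
        rcases mul_eq_zero.1 this.symm with h | h
        · exact h
        · exact absurd h hs
      obtain ⟨q, rfl⟩ := dvd_iff_isRoot.2 h2
      have hq0 : q ≠ 0 := by
        rintro rfl
        simp at hp0
      have hdeg : q.natDegree = n := by
        rw [natDegree_mul (X_sub_C_ne_zero 2) hq0, natDegree_X_sub_C] at hp
        omega
      apply ih q hdeg hq0
      apply L_ker H
      rw [map_mul, Module.End.mul_apply] at hph
      rw [L_eq]
      have e : (aeval (M H)) (X - C (2 : ℝ)) = M H - (2 : ℝ) • (1 : Module.End ℝ (V →₀ ℝ)) := by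
        rw [map_sub, aeval_X, aeval_C, Algebra.algebraMap_eq_smul_one]
      rw [e] at hph
      exact hph
  rintro ⟨p, hp0, hph⟩
  exact key _ p rfl hp0 hph

lemma k_natAbs (m : ℤ) (u v : V) : |k H m u v| = |k H m.natAbs u v| := by
  rcases Int.natAbs_eq m with h | h
  · conv_lhs => rw [h]
  · conv_lhs => rw [h]
    rw [k_neg, abs_neg]

/-- difference of the `g`-coefficients -/
noncomputable def za (u : V) (n : ℤ) (u' : V) (n' : ℤ) : V →₀ ℝ :=
  Ko H n (Finsupp.single u 1) - Ko H n' (Finsupp.single u' 1)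

lemma za_apply (u : V) (n : ℤ) (u' : V) (n' : ℤ) (x : V) :
    za H u n u' n' x = k H n u x - k H n' u' x := by
  unfold za k; rw [Finsupp.sub_apply]

lemma za_swap (u : V) (n : ℤ) (u' : V) (n' : ℤ) :
    (za H u' n' u n).support = (za H u n u' n').support := by
  have : za H u' n' u n = - za H u n u' n' := by unfold za; abel
  rw [this, Finsupp.support_neg]

lemma k_nat_neg {n : ℤ} {N : ℕ} (h : n.natAbs = N) : ∃ s : ℝ, (s = 1 ∨ s = -1) ∧
    ∀ u v, k H n u v = s * k H N u v := by
  rcases Int.natAbs_eq n with h' | h'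
  · refine ⟨1, Or.inl rfl, ?_⟩
    intro u v
    rw [h', h, one_mul]
  · refine ⟨-1, Or.inr rfl, ?_⟩
    intro u v
    rw [h', h, k_neg]
    ring

lemma strict_supp {u u' : V} {n n' : ℤ} (hlt : n'.natAbs < n.natAbs) {W : Finset V}
    (hW : (za H u n u' n').support ⊆ W) :
    u ∈ W ∧ ∃ x ∈ W, H.G.dist u x + 1 = n.natAbs := by
  obtain ⟨N, hN⟩ : ∃ N, n.natAbs = N + 1 := ⟨n.natAbs - 1, by omega⟩
  obtain ⟨s, hs, hk⟩ := k_nat_neg H hN
  have hs0 : s ≠ 0 := by rcases hs with rfl | rfl <;> norm_num
  constructor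
  · apply hW
    rw [Finsupp.mem_support_iff, za_apply]
    intro h
    have h1 := k_abs_le H n'.natAbs u' u u
    have h2 := k_diag_lt H (m := n'.natAbs) (n := N + 1) (by omega) u
    have h3 : |k H n u u| = |k H n' u' u| := by rw [sub_eq_zero.1 h]
    rw [k_natAbs H n' u' u, hk u u, abs_mul] at h3
    have h4 : |s| = 1 := by rcases hs with rfl | rfl <;> norm_num
    rw [h4, one_mul] at h3
    have h5 := le_abs_self (k H (N + 1 : ℕ) u u)
    linarith
  · obtain ⟨x, y, hx, hy, hxy⟩ := antipodal H u N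
    have t : H.G.dist x y ≤ H.G.dist x u' + H.G.dist u' y := H.conn.dist_triangle
    rw [SimpleGraph.dist_comm (u := x) (v := u')] at t
    have key : ∀ z, H.G.dist u z = N → N ≤ H.G.dist u' z → z ∈ W := by
      intro z hz1 hz2
      apply hW
      rw [Finsupp.mem_support_iff, za_apply]
      have e1 : k H n' u' z = 0 := by
        have := k_eq_zero_of_le H (n := n'.natAbs) (u := u') (x := z) (by omega)
        have h2 := k_natAbs H n' u' z
        rw [this, abs_zero, abs_eq_zero] at h2
        exact h2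
      rw [e1, sub_zero, hk u z]
      exact mul_ne_zero hs0 (k_sphere_ne H hz1)
    by_cases hc : N ≤ H.G.dist u' x
    · exact ⟨x, key x hx hc, by omega⟩
    · exact ⟨y, key y hy (by omega), by omega⟩

lemma strict_supp2 {u u' : V} {n n' : ℤ} (hlt : n'.natAbs < n.natAbs) (hn' : n' ≠ 0) {W : Finset V}
    (hW : (za H u n u' n').support ⊆ W) :
    ∃ y, H.G.dist u' y < n.natAbs ∧ (y ∈ W ∨ H.G.dist u y < n.natAbs) := by
  obtain ⟨m, hm⟩ : ∃ m, n'.natAbs = m + 1 := ⟨n'.natAbs - 1, by omega⟩
  obtain ⟨s, hs, hk⟩ := k_nat_neg H hm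
  have hs0 : s ≠ 0 := by rcases hs with rfl | rfl <;> norm_num
  obtain ⟨y, _, hy, _, _⟩ := antipodal H u' m
  refine ⟨y, by omega, ?_⟩
  by_contra hcon
  push Not at hcon
  obtain ⟨h1, h2⟩ := hcon
  apply h1
  apply hW
  rw [Finsupp.mem_support_iff, za_apply]
  have e1 : k H n u y = 0 := by
    have := k_eq_zero_of_le H (n := n.natAbs) (u := u) (x := y) h2
    have h2 := k_natAbs H n u y
    rw [this, abs_zero, abs_eq_zero] at h2
    exact h2
  rw [e1, hk u' y, zero_sub]
  exact neg_ne_zero.2 (mul_ne_zero hs0 (k_sphere_ne H hy))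

lemma equal_supp {u u' : V} {n n' : ℤ} (heq : n'.natAbs = n.natAbs) (hn : n ≠ 0)
    (hne : (u, n) ≠ (u', n')) {W : Finset V}
    (hW : (za H u n u' n').support ⊆ W) : u ∈ W := by
  obtain ⟨N, hN⟩ : ∃ N, n.natAbs = N := ⟨_, rfl⟩
  have hN1 : 1 ≤ N := by omega
  obtain ⟨s, hs, hk⟩ := k_nat_neg H hN
  obtain ⟨s', hs', hk'⟩ := k_nat_neg H (n := n') (N := N) (by omega)
  apply hW
  rw [Finsupp.mem_support_iff, za_apply, hk, hk']
  intro h
  have h0 := k_diag_lt H (m := 0) (n := N) (by omega) u
  rw [Nat.cast_zero, k_zero] at h0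
  by_cases huu : u = u'
  · subst huu
    have hnn : n ≠ n' := fun e => hne (by rw [e])
    have : n' = - n := by omega
    subst this
    have e1 := hk' u u
    rw [k_neg, hk u u] at e1
    rw [← sub_mul] at h
    rcases mul_eq_zero.1 h with h | h
    · rw [← sub_eq_zero] at e1
      have : (s + s') * k H N u u = 0 := by linarith
      rcases mul_eq_zero.1 this with h2 | h2
      · have : s = 0 := by linarith
        rcases hs with rfl | rfl <;> norm_num at this
      · linarith
    · linarith
  · have h1 := k_abs_lt H hN1 (u := u') (v := u) u (Ne.symm huu)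
    have e2 : |s * k H N u u| = |s' * k H N u' u| := by rw [sub_eq_zero.1 h]
    rw [abs_mul, abs_mul] at e2
    have h4 : |s| = 1 := by rcases hs with rfl | rfl <;> norm_num
    have h5 : |s'| = 1 := by rcases hs' with rfl | rfl <;> norm_num
    rw [h4, h5, one_mul, one_mul] at e2
    have := le_abs_self (k H N u u)
    linarith

lemma diff_Ko (n : ℤ) (u u' : V) : Ko H n (Finsupp.single u 1 - Finsupp.single u' 1)
    = za H u n u' n := by
  unfold za; rw [map_sub]

/-- excluded pairs -/
def Exc (u : V) (n : ℤ) (u' : V) (n' : ℤ) : Prop :=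
  n = n' ∧ Alg H (Finsupp.single u 1 - Finsupp.single u' 1)

lemma finset_bound (f : V → V → ℕ) (W : Finset V) : ∃ b, ∀ x ∈ W, ∀ y ∈ W, f x y ≤ b := by
  classical
  refine ⟨(W ×ˢ W).sup (fun p => f p.1 p.2), ?_⟩
  intro x hx y hy
  exact Finset.le_sup (f := fun p : V × V => f p.1 p.2) (Finset.mk_mem_product hx hy)

/-- the main finiteness statement: pairs whose `g`-part is supported in `W` -/
lemma finite_pairs (W : Finset V) : ∃ (B : Finset V) (b : ℕ), W ⊆ B ∧
    ∀ u n u' n', n ≠ 0 → n' ≠ 0 → (u, n) ≠ (u', n') → ¬ Exc H u n u' n' →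
      (za H u n u' n').support ⊆ W →
      u ∈ B ∧ u' ∈ B ∧ n.natAbs ≤ b ∧ n'.natAbs ≤ b := by
  classical
  obtain ⟨R, hR⟩ := finset_bound (fun x y => H.G.dist x y) W
  have hb1 : ∀ h : V →₀ ℝ, ∃ b : ℕ, ¬ Alg H h → ∀ N : ℕ, (Ko H N h).support ⊆ W → N ≤ b := by
    intro h
    by_cases hh : Alg H h
    · exact ⟨0, fun h' => absurd hh h'⟩
    · obtain ⟨b, hb⟩ := supp_finite H h hh W
      exact ⟨b, fun _ => hb⟩
  choose bf hbf using hb1
  obtain ⟨b1, hb1⟩ := finset_bound
    (fun x y => bf (Finsupp.single x 1 - Finsupp.single y 1)) W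
  obtain ⟨b2, hb2⟩ := finset_bound
    (fun x y => bf (Finsupp.single x 1 + Finsupp.single y 1)) W
  let B : Finset V := W.biUnion (fun w => (ball_finite H w (2 * R + 10)).toFinset)
  have hB : ∀ w ∈ W, ∀ x, H.G.dist w x ≤ 2 * R + 10 → x ∈ B := by
    intro w hw x hx
    rw [Finset.mem_biUnion]
    exact ⟨w, hw, by rw [Set.Finite.mem_toFinset]; exact hx⟩
  have hWB : W ⊆ B := fun w hw => hB w hw w (by simp)
  -- strict case
  have strict : ∀ u n u' n', n'.natAbs < n.natAbs → n' ≠ 0 →
      (za H u n u' n').support ⊆ W →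
      u ∈ B ∧ u' ∈ B ∧ n.natAbs ≤ R + 1 ∧ n'.natAbs ≤ R + 1 := by
    intro u n u' n' hlt hn' hW
    obtain ⟨h1, x, hx, hxd⟩ := strict_supp H hlt hW
    have h2 : H.G.dist u x ≤ R := hR u h1 x hx
    obtain ⟨y, hy1, hy2⟩ := strict_supp2 H hlt hn' hW
    refine ⟨hWB h1, ?_, by omega, by omega⟩
    have t : H.G.dist u u' ≤ H.G.dist u y + H.G.dist y u' := H.conn.dist_triangle
    rw [SimpleGraph.dist_comm (u := y) (v := u')] at t
    apply hB u h1
    rcases hy2 with hy2 | hy2
    · have : H.G.dist u y ≤ R := hR u h1 y hy2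
      omega
    · omega
  refine ⟨B, R + 1 + b1 + b2, hWB, ?_⟩
  intro u n u' n' hn hn' hne hexc hW
  rcases lt_trichotomy n'.natAbs n.natAbs with hlt | heq | hlt
  · obtain ⟨a1, a2, a3, a4⟩ := strict u n u' n' hlt hn' hW
    exact ⟨a1, a2, by omega, by omega⟩
  · have hu := equal_supp H heq hn hne hW
    have hu' : u' ∈ W := by
      apply equal_supp H (u := u') (u' := u) (n := n') (n' := n) heq.symm hn' (Ne.symm hne)
      rw [za_swap]; exact hW
    have hnn : n = n' ∨ n' = - n := by omega
    rcases hnn with hnn | hnn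
    · subst hnn
      have hA : ¬ Alg H (Finsupp.single u 1 - Finsupp.single u' 1) := fun h => hexc ⟨rfl, h⟩
      have h1 := hbf _ hA n.natAbs (by
        rw [diff_Ko]
        rcases Int.natAbs_eq n with h | h
        · rw [← h]; exact hW
        · have e : za H u (n.natAbs : ℤ) u' (n.natAbs : ℤ) = - za H u n u' n := by
            unfold za
            have : (n.natAbs : ℤ) = - n := by omega
            rw [this, Ko_neg, LinearMap.neg_apply, LinearMap.neg_apply]
            abel
          rw [e, Finsupp.support_neg]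
          exact hW)
      have h2 : bf (Finsupp.single u 1 - Finsupp.single u' 1) ≤ b1 := hb1 u hu u' hu'
      exact ⟨hWB hu, hWB hu', by omega, by omega⟩
    · subst hnn
      have hA : ¬ Alg H (Finsupp.single u 1 + Finsupp.single u' 1) := by
        apply not_alg_of_sum
        rw [ev_add, ev_single, ev_single]
        norm_num
      have h1 := hbf _ hA n.natAbs (by
        have e0 : Ko H (n.natAbs : ℤ) (Finsupp.single u 1 + Finsupp.single u' 1)
            = za H u n u' (-n) ∨ Ko H (n.natAbs : ℤ) (Finsupp.single u 1 + Finsupp.single u' 1)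
            = - za H u n u' (-n) := by
          rcases Int.natAbs_eq n with h | h
          · left
            rw [← h]
            unfold za
            rw [map_add, Ko_neg, LinearMap.neg_apply]
            abel
          · right
            have : (n.natAbs : ℤ) = - n := by omega
            rw [this]
            unfold za
            rw [map_add, Ko_neg, LinearMap.neg_apply, LinearMap.neg_apply]
            abel
        rcases e0 with e | e
        · rw [e]; exact hW
        · rw [e, Finsupp.support_neg]; exact hW)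
      have h2 : bf (Finsupp.single u 1 + Finsupp.single u' 1) ≤ b2 := hb2 u hu u' hu'
      exact ⟨hWB hu, hWB hu', by omega, by omega⟩
  · have hW' : (za H u' n' u n).support ⊆ W := by rw [za_swap]; exact hW
    obtain ⟨a1, a2, a3, a4⟩ := strict u' n' u n hlt hn hW'
    exact ⟨a2, a1, by omega, by omega⟩

end Pool.Agent.MP_0f2988_co
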