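import Pool.Agent.Lib.MP_0f2988_co.Val

set_option autoImplicit false
set_option maxHeartbeats 4000000

namespace Pool.Agent.MP_0f2988_co

universe u

variable {V : Type u} (H : RG V)

structure State where
  W : Finset V
  f : V → ℤ
  g : V → ℤ
  inv : Inv H W f g

variable {H} in
def Le (s t : State H) : Prop := s.W ⊆ t.W ∧ ∀ x ∈ s.W, t.f x = s.f x ∧ t.g x = s.g x

variable {H} in
lemma Le.refl (s : State H) : Le s s := ⟨Finset.Subset.refl _, fun _ _ => ⟨rfl, rfl⟩⟩

variable {H} in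
lemma Le.trans {s t r : State H} (h1 : Le s t) (h2 : Le t r) : Le s r := by
  refine ⟨h1.1.trans h2.1, ?_⟩
  intro x hx
  have a := h1.2 x hx
  have b := h2.2 x (h1.1 hx)
  exact ⟨b.1.trans a.1, b.2.trans a.2⟩

lemma step_vertex (s : State H) (v : V) : ∃ t : State H, Le s t ∧ v ∈ t.W := by
  classical
  by_cases hv : v ∈ s.W
  · exact ⟨s, Le.refl s, hv⟩
  · obtain ⟨a, b, hI⟩ := add_vertex H hv s.inv
    refine ⟨⟨insert v s.W, _, _, hI⟩, ⟨Finset.subset_insert _ _, ?_⟩, Finset.mem_insert_self _ _⟩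
    intro x hx
    have hxv : x ≠ v := by rintro rfl; exact hv hx
    exact ⟨Function.update_of_ne hxv _ _, Function.update_of_ne hxv _ _⟩

def Det (W : Finset V) (u : V) (n : ℤ) : Prop :=
  (Ko H n (Finsupp.single u 1)).support ⊆ W ∧ (Ko H (n - 1) (Finsupp.single u 1)).support ⊆ W

lemma step_value (s : State H) (c : ℤ) : ∃ t : State H, Le s t ∧
    ∃ u n, Det H t.W u n ∧ val H u n (rr t.f) (rr t.g) = c := by
  classical
  by_cases hc : ∃ u n, Det H s.W u n ∧ val H u n (rr s.f) (rr s.g) = c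
  · exact ⟨s, Le.refl s, hc⟩
  · push Not at hc
    obtain ⟨v, hv, t, hI⟩ := add_value H s.inv c (fun u n h1 h2 => hc u n ⟨h1, h2⟩)
    refine ⟨⟨insert v s.W, _, _, hI⟩, ⟨Finset.subset_insert _ _, ?_⟩, v, 0, ⟨?_, ?_⟩, ?_⟩
    · intro x hx
      have hxv : x ≠ v := by rintro rfl; exact hv hx
      exact ⟨Function.update_of_ne hxv _ _, Function.update_of_ne hxv _ _⟩
    · rw [Ko_zero]; simp
    · rw [show (0 : ℤ) - 1 = -1 by norm_num, Ko_neg, Ko_one]
      intro x hx
      rw [Finsupp.mem_support_iff] at hx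
      have : x = v := by
        by_contra h
        apply hx
        rw [LinearMap.neg_apply, Module.End.one_apply, Finsupp.neg_apply,
          Finsupp.single_eq_of_ne h, neg_zero]
      rw [this]; exact Finset.mem_insert_self _ _
    · rw [val_zero]
      simp [rr]

lemma step_both (s : State H) (v : V) (c : ℤ) : ∃ t : State H, Le s t ∧ v ∈ t.W ∧
    ∃ u n, Det H t.W u n ∧ val H u n (rr t.f) (rr t.g) = c := by
  obtain ⟨t, h1, h2⟩ := step_vertex H s v
  obtain ⟨r, h3, h4⟩ := step_value H t c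
  exact ⟨r, h1.trans h3, h3.1 h2, h4⟩

include H in
lemma countable_V : Countable V := by
  obtain ⟨o⟩ := H.conn.nonempty
  have h : (Set.univ : Set V) = ⋃ n : ℕ, {x | H.G.dist o x ≤ n} := by
    symm
    rw [Set.eq_univ_iff_forall]
    intro x
    rw [Set.mem_iUnion]
    exact ⟨H.G.dist o x, le_refl (H.G.dist o x)⟩
  rw [← Set.countable_univ_iff, h]
  exact Set.countable_iUnion (fun n => (ball_finite H o n).countable)

noncomputable def seq (e : ℕ → V) (c : ℕ → ℤ) : ℕ → State H
  | 0 => ⟨∅, _, _, inv_empty H⟩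
  | i + 1 => (step_both H (seq e c i) (e i) (c i)).choose

lemma seq_spec (e : ℕ → V) (c : ℕ → ℤ) (i : ℕ) :
    Le (seq H e c i) (seq H e c (i + 1)) ∧ e i ∈ (seq H e c (i + 1)).W ∧
    ∃ u n, Det H (seq H e c (i + 1)).W u n ∧
      val H u n (rr (seq H e c (i + 1)).f) (rr (seq H e c (i + 1)).g) = c i :=
  (step_both H (seq H e c i) (e i) (c i)).choose_spec

lemma seq_mono (e : ℕ → V) (c : ℕ → ℤ) {i j : ℕ} (h : i ≤ j) :
    Le (seq H e c i) (seq H e c j) := by
  induction j, h using Nat.le_induction with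
  | base => exact Le.refl _
  | succ j _ ih => exact ih.trans (seq_spec H e c j).1

lemma ev_congr {a : V →₀ ℝ} {f g : V → ℝ} (h : ∀ x ∈ a.support, f x = g x) : ev a f = ev a g := by
  rw [ev_eq_sum a f _ (le_refl _), ev_eq_sum a g _ (le_refl _)]
  exact Finset.sum_congr rfl (fun x hx => by rw [h x hx])

lemma exists_limit : ∃ F G : V → ℤ,
    (∀ u n u' n', (u, n) ≠ (u', n') →
      val H u n (rr F) (rr G) ≠ val H u' n' (rr F) (rr G)) ∧
    (∀ c : ℤ, ∃ u n, val H u n (rr F) (rr G) = c) := by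
  classical
  have hcount := countable_V H
  have hne := H.conn.nonempty
  obtain ⟨e, he⟩ := exists_surjective_nat V
  obtain ⟨c, hc⟩ := exists_surjective_nat ℤ
  choose idx hidx using he
  let s := seq H e c
  let F : V → ℤ := fun x => (s (idx x + 1)).f x
  let G : V → ℤ := fun x => (s (idx x + 1)).g x
  have hmem : ∀ x, x ∈ (s (idx x + 1)).W := by
    intro x
    have := (seq_spec H e c (idx x)).2.1
    rw [hidx] at this
    exact this
  have hFG : ∀ i, ∀ x ∈ (s i).W, F x = (s i).f x ∧ G x = (s i).g x := by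
    intro i x hx
    have h1 := (seq_mono H e c (le_max_left i (idx x + 1))).2 x hx
    have h2 := (seq_mono H e c (le_max_right i (idx x + 1))).2 x (hmem x)
    exact ⟨h2.1.symm.trans h1.1, h2.2.symm.trans h1.2⟩
  have hcov : ∀ A : Finset V, ∃ i, A ⊆ (s i).W := by
    intro A
    induction A using Finset.induction_on with
    | empty => exact ⟨0, by simp⟩
    | insert a A _ ih =>
      obtain ⟨i, hi⟩ := ih
      refine ⟨max i (idx a + 1), ?_⟩
      intro x hx
      rcases Finset.mem_insert.1 hx with h | h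
      · rw [h]
        exact (seq_mono H e c (le_max_right i (idx a + 1))).1 (hmem a)
      · exact (seq_mono H e c (le_max_left i (idx a + 1))).1 (hi h)
  refine ⟨F, G, ?_, ?_⟩
  · intro u n u' n' hne' heq
    obtain ⟨i, hi⟩ := hcov ({u, u'} ∪ ((za H u n u' n').support ∪
      (za H u (n - 1) u' (n' - 1)).support))
    have hu : u ∈ (s i).W := hi (by simp)
    have hu' : u' ∈ (s i).W := hi (by simp)
    have h1 : (za H u n u' n').support ⊆ (s i).W := fun x hx =>
      hi (Finset.mem_union_right _ (Finset.mem_union_left _ hx))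
    have h2 : (za H u (n - 1) u' (n' - 1)).support ⊆ (s i).W := fun x hx =>
      hi (Finset.mem_union_right _ (Finset.mem_union_right _ hx))
    have hD : D H u n u' n' (rr F) (rr G) = D H u n u' n' (rr (s i).f) (rr (s i).g) := by
      unfold D
      rw [ev_congr (a := za H u n u' n') (f := rr G) (g := rr (s i).g)
        (fun x hx => by unfold rr; rw [(hFG i x (h1 hx)).2]),
        ev_congr (a := za H u (n - 1) u' (n' - 1)) (f := rr F) (g := rr (s i).f)
        (fun x hx => by unfold rr; rw [(hFG i x (h2 hx)).1])]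
    have h0 : D H u n u' n' (rr (s i).f) (rr (s i).g) = 0 := by
      rw [← hD, D_eq_val, heq, sub_self]
    by_cases hexc : Exc H u n u' n'
    · obtain ⟨h3, h4⟩ := hexc
      subst h3
      have huu : u ≠ u' := by
        rintro rfl
        exact hne' rfl
      exact ((s i).inv.I2 u u' huu h4 hu hu').1 n h0
    · exact (s i).inv.I1 (u, n, u', n') ⟨hne', hexc, h1, h2⟩ h0
  · intro z
    obtain ⟨i, hi⟩ := hc z
    obtain ⟨u, n, ⟨h1, h2⟩, h3⟩ := (seq_spec H e c i).2.2
    refine ⟨u, n, ?_⟩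
    rw [hi] at h3
    rw [← h3]
    unfold val
    rw [ev_congr (a := Ko H n (Finsupp.single u 1)) (f := rr G) (g := rr (s (i + 1)).g)
      (fun x hx => by unfold rr; rw [(hFG (i + 1) x (h1 hx)).2]),
      ev_congr (a := Ko H (n - 1) (Finsupp.single u 1)) (f := rr F) (g := rr (s (i + 1)).f)
      (fun x hx => by unfold rr; rw [(hFG (i + 1) x (h2 hx)).1])]

lemma Ko_rec (n : ℤ) (u : V) : Ko H (n + 1) (Finsupp.single u 1) +
    Ko H (n - 1) (Finsupp.single u 1) = ((H.d : ℝ) + 2) • Ko H n (Finsupp.single u 1) -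
      ∑ w ∈ H.N u, Ko H n (Finsupp.single w 1) := by
  rw [Ko_succ, LinearMap.sub_apply, sub_add_cancel, ← Ko_comm, Module.End.mul_apply, M_single,
    one_smul, map_sub, map_smul, map_sum]

lemma val_rec (n : ℤ) (u : V) (f g : V → ℝ) : val H u (n + 1) f g + val H u (n - 1) f g =
    ((H.d : ℝ) + 2) * val H u n f g - ∑ w ∈ H.N u, val H w n f g := by
  have h1 := congrArg (fun a => ev a g) (Ko_rec H n u)
  have h2 := congrArg (fun a => ev a f) (Ko_rec H (n - 1) u)
  simp only [ev_add, ev_sub, ev_smul, ev_sum] at h1 h2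
  unfold val
  rw [Finset.sum_sub_distrib]
  rw [show n - 1 + 1 = n by ring] at h2
  rw [show n + 1 - 1 = n by ring]
  linarith

lemma val_int (f g : V → ℤ) (n : ℤ) : ∀ u, (∃ z : ℤ, val H u n (rr f) (rr g) = z) ∧
    (∃ z : ℤ, val H u (n + 1) (rr f) (rr g) = z) := by
  induction n using Int.induction_on with
  | zero =>
    intro u
    refine ⟨⟨f u, val_zero H u _ _⟩, ⟨g u, ?_⟩⟩
    rw [zero_add]
    exact val_one H u _ _
  | succ n ih =>
    intro u
    refine ⟨(ih u).2, ?_⟩
    have hrec := val_rec H ((n : ℤ) + 1) u (rr f) (rr g)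
    choose z hz using fun w => (ih w).2
    obtain ⟨y, hy⟩ := (ih u).1
    rw [show (n : ℤ) + 1 - 1 = n by ring, hy, hz u] at hrec
    rw [Finset.sum_congr rfl (fun w _ => hz w)] at hrec
    refine ⟨((H.d : ℤ) + 2) * z u - ∑ w ∈ H.N u, z w - y, ?_⟩
    push_cast
    linarith
  | pred n ih =>
    intro u
    rw [show -(n : ℤ) - 1 + 1 = -(n : ℤ) by ring]
    refine ⟨?_, (ih u).1⟩
    have hrec := val_rec H (-(n : ℤ)) u (rr f) (rr g)
    choose z hz using fun w => (ih w).1
    obtain ⟨y, hy⟩ := (ih u).2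
    rw [hy, hz u] at hrec
    rw [Finset.sum_congr rfl (fun w _ => hz w)] at hrec
    refine ⟨((H.d : ℤ) + 2) * z u - ∑ w ∈ H.N u, z w - y, ?_⟩
    push_cast
    linarith

theorem exists_labeling : ∃ φ : V → ℤ → ℤ,
    Function.Bijective (fun p : V × ℤ => φ p.1 p.2) ∧
    ∀ u n, φ u (n + 1) + φ u (n - 1) + ∑ w ∈ H.N u, φ w n = ((H.d : ℤ) + 2) * φ u n := by
  obtain ⟨F, G, hinj, hsurj⟩ := exists_limit H
  choose φ hφ using fun (u : V) (n : ℤ) => (val_int H F G n u).1
  refine ⟨φ, ⟨?_, ?_⟩, ?_⟩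
  · rintro ⟨u, n⟩ ⟨u', n'⟩ h
    simp only at h
    by_contra hne
    apply hinj u n u' n' hne
    rw [hφ, hφ, h]
  · intro c
    obtain ⟨u, n, h⟩ := hsurj c
    refine ⟨(u, n), ?_⟩
    rw [hφ] at h
    exact_mod_cast h
  · intro u n
    have h := val_rec H n u (rr F) (rr G)
    rw [hφ, hφ, hφ] at h
    rw [Finset.sum_congr rfl (fun w _ => hφ w n)] at h
    have h2 : ((φ u (n + 1) + φ u (n - 1) + ∑ w ∈ H.N u, φ w n : ℤ) : ℝ) =
        ((((H.d : ℤ) + 2) * φ u n : ℤ) : ℝ) := by
      push_cast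
      linarith
    exact_mod_cast h2

end Pool.Agent.MP_0f2988_co
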