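import Pool.Agent.Lib.MP_0f2988_co.Basic

set_option autoImplicit false
set_option maxHeartbeats 4000000

namespace Pool.Agent.MP_0f2988_co

open Polynomial

universe u

variable {V : Type u} (H : RG V)

noncomputable def Kp (n : ℤ) : ℝ[X] := Chebyshev.S ℝ (n - 1)

lemma Kp_zero : Kp 0 = 0 := by
  unfold Kp
  rw [show (0 : ℤ) - 1 = -1 by norm_num]
  exact Chebyshev.S_neg_one ℝ

lemma Kp_one : Kp 1 = 1 := by
  unfold Kp
  rw [show (1 : ℤ) - 1 = 0 by norm_num]
  exact Chebyshev.S_zero ℝ

lemma Kp_succ (n : ℤ) : Kp (n + 1) = X * Kp n - Kp (n - 1) := by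
  unfold Kp
  rw [show n + 1 - 1 = (n - 1) + 1 by ring]
  exact Chebyshev.S_add_one ℝ (n - 1)

lemma Kp_neg (n : ℤ) : Kp (-n) = - Kp n := by
  unfold Kp
  exact Chebyshev.S_neg_sub_one ℝ n

noncomputable def Ko (n : ℤ) : Module.End ℝ (V →₀ ℝ) := aeval (M H) (Kp n)

lemma Ko_zero : Ko H 0 = 0 := by unfold Ko; rw [Kp_zero, map_zero]
lemma Ko_one : Ko H 1 = 1 := by unfold Ko; rw [Kp_one, map_one]
lemma Ko_succ (n : ℤ) : Ko H (n + 1) = M H * Ko H n - Ko H (n - 1) := by
  unfold Ko; rw [Kp_succ, map_sub, map_mul, aeval_X]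
lemma Ko_neg (n : ℤ) : Ko H (-n) = - Ko H n := by unfold Ko; rw [Kp_neg, map_neg]

lemma Ko_comm (n : ℤ) : Ko H n * M H = M H * Ko H n := by
  calc Ko H n * M H = aeval (M H) (Kp n * X) := by rw [map_mul, aeval_X]; rfl
    _ = aeval (M H) (X * Kp n) := by rw [mul_comm]
    _ = M H * Ko H n := by rw [map_mul, aeval_X]; rfl

/-- coefficient `K_n(u,v)` -/
noncomputable def k (n : ℤ) (u v : V) : ℝ := Ko H n (Finsupp.single u 1) v

lemma k_zero (u v : V) : k H 0 u v = 0 := by unfold k; rw [Ko_zero]; rfl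
lemma k_one (u v : V) : k H 1 u v = Finsupp.single u (1 : ℝ) v := by unfold k; rw [Ko_one]; rfl
lemma k_neg (n : ℤ) (u v : V) : k H (-n) u v = - k H n u v := by unfold k; rw [Ko_neg]; rfl
lemma k_succ (n : ℤ) (u v : V) : k H (n + 1) u v =
    ((H.d : ℝ) + 2) * k H n u v - ∑ w ∈ H.N v, k H n u w - k H (n - 1) u v := by
  unfold k
  rw [Ko_succ, LinearMap.sub_apply, Module.End.mul_apply, Finsupp.sub_apply, M_apply]

/-- polynomials with nonnegative coefficients -/
def NN (p : ℝ[X]) : Prop := ∀ j, 0 ≤ p.coeff j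

noncomputable def Q : ℕ → ℝ[X]
  | 0 => 0
  | 1 => 1
  | n + 2 => (2 + X) * Q (n + 1) - Q n

lemma Q_succ (n : ℕ) : Q (n + 2) = (2 + X) * Q (n + 1) - Q n := rfl

lemma M_eq_L : M H = 2 + L H := by unfold L; abel

lemma aeval_Q (n : ℕ) : aeval (L H) (Q n) = Ko H n ∧ aeval (L H) (Q (n + 1)) = Ko H (n + 1) := by
  induction n with
  | zero =>
    constructor
    · simp [Q, Ko_zero]
    · simp [Q, Ko_one]
  | succ n ih =>
    refine ⟨by have := ih.2; push_cast; exact this, ?_⟩
    rw [Q_succ, map_sub, map_mul, map_add, aeval_X, ih.1, ih.2, map_ofNat, ← M_eq_L]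
    have := Ko_succ H ((n : ℤ) + 1)
    push_cast
    rw [this]
    congr 2
    ring

lemma Q_NN (n : ℕ) : NN (Q n) ∧ NN (Q (n + 1) - Q n) ∧ (Q (n + 1) - Q n).coeff 0 = 1 ∧
    (Q n).coeff 0 = n := by
  induction n with
  | zero =>
    refine ⟨fun j => by simp [Q], fun j => ?_, by simp [Q], by simp [Q]⟩
    simp only [Q, sub_zero, coeff_one]
    split_ifs <;> norm_num
  | succ n ih =>
    obtain ⟨h1, h2, h3, h4⟩ := ih
    have h5 : NN (Q (n + 1)) := by
      intro j
      have a1 := h1 j
      have a2 := h2 j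
      rw [coeff_sub] at a2
      linarith
    have e : Q (n + 1 + 1) - Q (n + 1) = (Q (n + 1) - Q n) + X * Q (n + 1) := by
      rw [Q_succ]; ring
    refine ⟨h5, ?_, ?_, ?_⟩
    · intro j
      rw [e, coeff_add]
      have a2 := h2 j
      rcases j with _ | j
      · simpa using a2
      · rw [coeff_X_mul]
        have := h5 j
        linarith
    · rw [e, coeff_add, h3]
      simp
    · rw [coeff_sub] at h3
      push_cast
      linarith

lemma aeval_L_apply (p : ℝ[X]) (u v : V) : (aeval (L H) p) (Finsupp.single u 1) v =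
    ∑ j ∈ Finset.range (p.natDegree + 1), p.coeff j * lj H j u v := by
  rw [aeval_eq_sum_range, LinearMap.sum_apply, Finsupp.coe_finsetSum, Finset.sum_apply]
  rfl

lemma NN_bound {p : ℝ[X]} (hp : NN p) (u v o : V) :
    |(aeval (L H) p) (Finsupp.single u 1) v| ≤ (aeval (L H) p) (Finsupp.single o 1) o := by
  rw [aeval_L_apply, aeval_L_apply]
  refine (Finset.abs_sum_le_sum_abs _ _).trans ?_
  apply Finset.sum_le_sum
  intro j _
  rw [abs_mul, abs_of_nonneg (hp j)]
  exact mul_le_mul_of_nonneg_left (lj_le H j u v o) (hp j)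

lemma NN_bound_ne {p : ℝ[X]} (hp : NN p) {u v : V} (o : V) (huv : u ≠ v) :
    |(aeval (L H) p) (Finsupp.single u 1) v| ≤
      (aeval (L H) p) (Finsupp.single o 1) o - p.coeff 0 := by
  classical
  rw [aeval_L_apply, aeval_L_apply]
  refine (Finset.abs_sum_le_sum_abs _ _).trans ?_
  rw [Finset.sum_range_succ', Finset.sum_range_succ']
  have h0 : lj H 0 u v = 0 := by
    unfold lj; simp [huv]
  have h1 : lj H 0 o o = 1 := by
    unfold lj; simp
  rw [h0, h1]
  simp only [mul_zero, abs_zero, add_zero, mul_one, add_sub_cancel_right]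
  apply Finset.sum_le_sum
  intro j _
  rw [abs_mul, abs_of_nonneg (hp _)]
  exact mul_le_mul_of_nonneg_left (lj_le H _ u v o) (hp _)

lemma NN_diag {p : ℝ[X]} (hp : NN p) (o : V) :
    p.coeff 0 ≤ (aeval (L H) p) (Finsupp.single o 1) o := by
  rw [aeval_L_apply, Finset.sum_range_succ']
  have h1 : lj H 0 o o = 1 := by
    unfold lj; simp
  rw [h1, mul_one]
  have : 0 ≤ ∑ j ∈ Finset.range p.natDegree, p.coeff (j + 1) * lj H (j + 1) o o :=
    Finset.sum_nonneg (fun j _ => mul_nonneg (hp _) (lj_nonneg H _ o))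
  linarith

lemma k_nat (n : ℕ) (u v : V) : k H n u v = (aeval (L H) (Q n)) (Finsupp.single u 1) v := by
  unfold k; rw [(aeval_Q H n).1]

lemma k_abs_le (n : ℕ) (u v o : V) : |k H n u v| ≤ k H n o o := by
  rw [k_nat, k_nat]
  exact NN_bound H (Q_NN n).1 u v o

lemma k_abs_lt {n : ℕ} (hn : 1 ≤ n) {u v : V} (o : V) (huv : u ≠ v) :
    |k H n u v| < k H n o o := by
  have h := NN_bound_ne H (Q_NN n).1 o huv
  rw [(Q_NN n).2.2.2] at h
  rw [k_nat, k_nat]
  have : (1 : ℝ) ≤ n := by exact_mod_cast hn
  linarith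

lemma k_diag_succ (n : ℕ) (o : V) : k H n o o + 1 ≤ k H (n + 1 : ℕ) o o := by
  rw [k_nat, k_nat]
  have h := NN_diag H (Q_NN n).2.1 o
  rw [(Q_NN n).2.2.1, map_sub, LinearMap.sub_apply, Finsupp.sub_apply] at h
  linarith

lemma k_diag_lt {m n : ℕ} (h : m < n) (o : V) : k H m o o < k H n o o := by
  induction n with
  | zero => omega
  | succ n ih =>
    have h1 := k_diag_succ H n o
    rcases Nat.lt_succ_iff_lt_or_eq.1 h with h2 | h2
    · have := ih h2
      linarith
    · subst h2
      linarith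

lemma k_diag_const (n : ℤ) (u v : V) : k H n u u = k H n v v := by
  have key : ∀ n : ℕ, k H n u u = k H n v v := by
    intro n
    rw [k_nat, k_nat, aeval_L_apply, aeval_L_apply]
    exact Finset.sum_congr rfl (fun j _ => by rw [lj_diag H j u v])
  rcases Int.eq_nat_or_neg n with ⟨m, rfl | rfl⟩
  · exact key m
  · rw [k_neg, k_neg, key]

lemma k_symm (n : ℤ) (u v : V) : k H n u v = k H n v u := by
  have key : ∀ n : ℕ, k H n u v = k H n v u := by
    intro n
    rw [k_nat, k_nat, aeval_L_apply, aeval_L_apply]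
    exact Finset.sum_congr rfl (fun j _ => by rw [lj_symm H j u v])
  rcases Int.eq_nat_or_neg n with ⟨m, rfl | rfl⟩
  · exact key m
  · rw [k_neg, k_neg, key]

/-- support statements -/
lemma k_far (n : ℕ) : ∀ u x : V, n ≤ H.G.dist u x → k H n u x = 0 ∧
    (n + 1 ≤ H.G.dist u x → k H (n + 1 : ℕ) u x = 0) := by
  classical
  induction n with
  | zero =>
    intro u x _
    refine ⟨k_zero H u x, ?_⟩
    intro h
    have : u ≠ x := by
      rintro rfl
      simp at h
    simp only [zero_add, Nat.cast_one, k_one]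
    rw [Finsupp.single_apply, if_neg this]
  | succ n ih =>
    intro u x hx
    refine ⟨(ih u x (by omega)).2 hx, ?_⟩
    intro h
    have e := k_succ H ((n : ℤ) + 1) u x
    push_cast
    rw [e]
    have h1 := (ih u x (by omega)).2 (by omega)
    have h2 := (ih u x (by omega)).1
    push_cast at h1
    rw [h1, show (n : ℤ) + 1 - 1 = n by ring, h2]
    have h3 : ∑ w ∈ H.N x, k H ((n : ℤ) + 1) u w = 0 := by
      apply Finset.sum_eq_zero
      intro w hw
      rw [H.hN] at hw
      have t : H.G.dist u x ≤ H.G.dist u w + H.G.dist w x := H.conn.dist_triangle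
      rw [SimpleGraph.dist_eq_one_iff_adj.2 hw.symm] at t
      have := (ih u w (by omega)).2 (by omega)
      push_cast at this
      exact this
    rw [h3]
    ring

lemma k_eq_zero_of_le {n : ℕ} {u x : V} (h : n ≤ H.G.dist u x) : k H n u x = 0 :=
  (k_far H n u x h).1

lemma k_sphere (n : ℕ) : ∀ u x : V, H.G.dist u x = n → 0 < (-1 : ℝ) ^ n * k H (n + 1 : ℕ) u x := by
  classical
  induction n with
  | zero =>
    intro u x h
    have : u = x := (H.conn.dist_eq_zero_iff).1 h
    subst this
    simp [k_one]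
  | succ n ih =>
    intro u x h
    have e := k_succ H ((n : ℤ) + 1) u x
    push_cast
    rw [e]
    have h1 := k_eq_zero_of_le H (n := n + 1) (u := u) (x := x) (by omega)
    have h2 := k_eq_zero_of_le H (n := n) (u := u) (x := x) (by omega)
    push_cast at h1
    rw [h1, show (n : ℤ) + 1 - 1 = n by ring, h2]
    have e2 : (-1 : ℝ) ^ (n + 1) * (((H.d : ℝ) + 2) * 0 - ∑ w ∈ H.N x, k H ((n : ℤ) + 1) u w - 0)
        = ∑ w ∈ H.N x, (-1 : ℝ) ^ n * k H ((n : ℤ) + 1) u w := by
      rw [← Finset.mul_sum, pow_succ]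
      ring
    rw [e2]
    have nonneg : ∀ w ∈ H.N x, 0 ≤ (-1 : ℝ) ^ n * k H ((n : ℤ) + 1) u w := by
      intro w hw
      rw [H.hN] at hw
      have t : H.G.dist u x ≤ H.G.dist u w + H.G.dist w x := H.conn.dist_triangle
      rw [SimpleGraph.dist_eq_one_iff_adj.2 hw.symm] at t
      by_cases hd : H.G.dist u w = n
      · have := ih u w hd
        push_cast at this
        exact this.le
      · have := k_eq_zero_of_le H (n := n + 1) (u := u) (x := w) (by omega)
        push_cast at this
        rw [this]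
        simp
    -- a neighbour closer to u
    obtain ⟨p, hp⟩ := H.conn.exists_walk_length_eq_dist x u
    rw [SimpleGraph.dist_comm, h] at hp
    cases p with
    | nil => simp at hp
    | @cons _ z _ hz q =>
      have h4 := SimpleGraph.dist_le q
      simp only [SimpleGraph.Walk.length_cons] at hp
      rw [SimpleGraph.dist_comm] at h4
      have t : H.G.dist u x ≤ H.G.dist u z + H.G.dist z x := H.conn.dist_triangle
      rw [SimpleGraph.dist_eq_one_iff_adj.2 hz.symm] at t
      have h5 := ih u z (by omega)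
      push_cast at h5
      exact Finset.sum_pos' nonneg ⟨z, (H.hN x z).2 hz, h5⟩

lemma k_sphere_ne {n : ℕ} {u x : V} (h : H.G.dist u x = n) : k H (n + 1 : ℕ) u x ≠ 0 := by
  intro h2
  have := k_sphere H n u x h
  rw [h2] at this
  simp at this

/-- balls are finite -/
lemma ball_finite (u : V) (n : ℕ) : {x | H.G.dist u x ≤ n}.Finite := by
  classical
  induction n with
  | zero =>
    apply Set.Finite.subset (Set.finite_singleton u)
    intro x hx
    simp only [Set.mem_ofPred_eq, Nat.le_zero] at hx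
    exact ((H.conn.dist_eq_zero_iff).1 hx).symm
  | succ n ih =>
    have : {x | H.G.dist u x ≤ n + 1} ⊆ {x | H.G.dist u x ≤ n} ∪
        ⋃ y ∈ {x | H.G.dist u x ≤ n}, (H.N y : Set V) := by
      intro x hx
      simp only [Set.mem_ofPred_eq] at hx
      by_cases h : H.G.dist u x ≤ n
      · exact Or.inl h
      · right
        obtain ⟨p, hp⟩ := H.conn.exists_walk_length_eq_dist x u
        rw [SimpleGraph.dist_comm] at hp
        cases p with
        | nil => exact absurd (by simp) h
        | @cons _ z _ hz q =>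
          have h4 := SimpleGraph.dist_le q
          simp only [SimpleGraph.Walk.length_cons] at hp
          rw [SimpleGraph.dist_comm] at h4
          simp only [Set.mem_iUnion]
          refine ⟨z, ?_, ?_⟩
          · show H.G.dist u z ≤ n
            omega
          · exact (H.hN z x).2 hz.symm
    exact (ih.union (ih.biUnion (fun y _ => (H.N y).finite_toSet))).subset this

/-- antipodal points -/
lemma antipodal (u : V) (m : ℕ) : ∃ x y, H.G.dist u x = m ∧ H.G.dist u y = m ∧
    H.G.dist x y = 2 * m := by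
  classical
  have := H.inf
  obtain ⟨z, hz⟩ := (ball_finite H u (2 * m)).infinite_compl.nonempty
  simp only [Set.mem_compl_iff, Set.mem_ofPred_eq, not_le] at hz
  obtain ⟨p, hp⟩ := H.conn.exists_walk_length_eq_dist u z
  have hd : ∀ i j, i ≤ j → j ≤ p.length → H.G.dist (p.getVert i) (p.getVert j) = j - i := by
    intro i j hij hj
    have a1 : H.G.dist u (p.getVert i) ≤ i := by
      have := SimpleGraph.dist_le (p.take i)
      rw [SimpleGraph.Walk.take_length] at this
      omega
    have a3 : H.G.dist (p.getVert j) z ≤ p.length - j := by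
      have := SimpleGraph.dist_le (p.drop j)
      rw [SimpleGraph.Walk.drop_length] at this
      omega
    have a2 : H.G.dist (p.getVert i) (p.getVert j) ≤ j - i := by
      have h1 := SimpleGraph.dist_le ((p.drop i).take (j - i))
      rw [SimpleGraph.Walk.take_length] at h1
      have h2 : (p.drop i).getVert (j - i) = p.getVert j := by
        rw [SimpleGraph.Walk.drop_getVert]
        congr 1
        omega
      rw [h2] at h1
      omega
    have t1 : H.G.dist u z ≤ H.G.dist u (p.getVert i) + H.G.dist (p.getVert i) z :=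
      H.conn.dist_triangle
    have t2 : H.G.dist (p.getVert i) z ≤ H.G.dist (p.getVert i) (p.getVert j) +
      H.G.dist (p.getVert j) z := H.conn.dist_triangle
    omega
  have e0 : p.getVert 0 = u := by simp
  obtain ⟨σ, hσ⟩ := H.trans (p.getVert m) u
  have hiso : ∀ a b, H.G.dist (σ a) (σ b) = H.G.dist a b := by
    intro a b
    apply le_antisymm
    · obtain ⟨q, hq⟩ := H.conn.exists_walk_length_eq_dist a b
      have := SimpleGraph.dist_le (q.map σ.toHom)
      rw [SimpleGraph.Walk.length_map, hq] at this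
      exact this
    · obtain ⟨q, hq⟩ := H.conn.exists_walk_length_eq_dist (σ a) (σ b)
      have := SimpleGraph.dist_le (q.map σ.symm.toHom)
      rw [SimpleGraph.Walk.length_map, hq] at this
      have e1 : σ.symm.toHom (σ a) = a := by simp
      have e2 : σ.symm.toHom (σ b) = b := by simp
      rw [e1, e2] at this
      exact this
  refine ⟨σ (p.getVert 0), σ (p.getVert (2 * m)), ?_, ?_, ?_⟩
  · have e : H.G.dist u (σ (p.getVert 0)) = H.G.dist (σ (p.getVert m)) (σ (p.getVert 0)) := by
      rw [hσ]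
    rw [e, hiso, SimpleGraph.dist_comm, hd 0 m (by omega) (by omega)]
    omega
  · have e : H.G.dist u (σ (p.getVert (2 * m))) =
        H.G.dist (σ (p.getVert m)) (σ (p.getVert (2 * m))) := by
      rw [hσ]
    rw [e, hiso, hd m (2 * m) (by omega) (by omega)]
    omega
  · rw [hiso, hd 0 (2 * m) (by omega) (by omega)]
    omega

end Pool.Agent.MP_0f2988_co
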