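import Pool.Agent.Lib.MP_0f2988_co.Fin

set_option autoImplicit false
set_option maxHeartbeats 4000000

namespace Pool.Agent.MP_0f2988_co

open Polynomial

universe u

variable {V : Type u} (H : RG V)

/-- an algebraic vector has all its iterates supported in one finite set -/
lemma alg_support {h : V →₀ ℝ} (hh : Alg H h) :
    ∃ W : Finset V, ∀ p : ℝ[X], (aeval (M H) p h).support ⊆ W := by
  classical
  obtain ⟨q, hq0, hq⟩ := hh
  refine ⟨(Finset.range (q.natDegree + 1)).biUnion (fun i => ((M H ^ i) h).support), ?_⟩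
  intro p
  have e1 : aeval (M H) p h = aeval (M H) (p % q) h := by
    conv_lhs => rw [← EuclideanDomain.div_add_mod p q]
    rw [map_add, LinearMap.add_apply, mul_comm, map_mul, Module.End.mul_apply, hq, map_zero,
      zero_add]
  have hdeg : (p % q).natDegree < q.natDegree + 1 := by
    have := degree_mod_lt p hq0
    have h2 := natDegree_le_natDegree this.le
    omega
  rw [e1, aeval_eq_sum_range' hdeg, LinearMap.sum_apply]
  intro x hx
  have := Finsupp.support_finsetSum hx
  rw [Finset.mem_biUnion] at this ⊢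
  obtain ⟨i, hi, hxi⟩ := this
  refine ⟨i, hi, ?_⟩
  exact Finsupp.support_smul hxi

section compress

variable (W : Finset V)

open Classical in
noncomputable def ext : EuclideanSpace ℝ W →ₗ[ℝ] (V →₀ ℝ) where
  toFun a := Finsupp.onFinset W (fun v => if h : v ∈ W then a ⟨v, h⟩ else 0) (by
    intro v hv
    by_contra hc
    simp [hc] at hv)
  map_add' a b := by
    ext v
    by_cases h : v ∈ W <;> simp [h]
  map_smul' r a := by
    ext v
    by_cases h : v ∈ W <;> simp [h]

open Classical in
lemma ext_apply (a : EuclideanSpace ℝ W) (v : V) :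
    ext W a v = if h : v ∈ W then a ⟨v, h⟩ else 0 := rfl

lemma ext_mem (a : EuclideanSpace ℝ W) (v : W) : ext W a v = a v := by
  rw [ext_apply, dif_pos v.2]

lemma ext_support (a : EuclideanSpace ℝ W) : (ext W a).support ⊆ W := by
  intro v hv
  rw [Finsupp.mem_support_iff, ext_apply] at hv
  by_contra hc
  exact hv (dif_neg hc)

noncomputable def res : (V →₀ ℝ) →ₗ[ℝ] EuclideanSpace ℝ W where
  toFun b := WithLp.toLp 2 (fun x : W => b x)
  map_add' a b := by
    ext v
    simp
  map_smul' r a := by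
    ext v
    simp

lemma res_apply (b : V →₀ ℝ) (x : W) : res W b x = b x := rfl

lemma ext_res {b : V →₀ ℝ} (hb : b.support ⊆ W) : ext W (res W b) = b := by
  ext v
  by_cases h : v ∈ W
  · rw [ext_apply, dif_pos h, res_apply]
  · rw [ext_apply, dif_neg h]
    symm
    by_contra hc
    exact h (hb (Finsupp.mem_support_iff.2 hc))

lemma inner_res (b : V →₀ ℝ) (a : EuclideanSpace ℝ W) :
    inner ℝ (res W b) a = ip b (ext W a) := by
  rw [ip_comm]
  unfold ip
  rw [ev_eq_sum _ _ W (ext_support W a), PiLp.inner_apply,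
    ← Finset.sum_coe_sort W (fun x => (ext W a) x * b x)]
  apply Finset.sum_congr rfl
  intro x _
  rw [res_apply, ext_mem]
  rfl

noncomputable def TW : EuclideanSpace ℝ W →ₗ[ℝ] EuclideanSpace ℝ W :=
  (res W) ∘ₗ (M H) ∘ₗ (ext W)

lemma TW_symm : (TW H W).IsSymmetric := by
  intro a b
  have h1 : inner ℝ (TW H W a) b = ip (M H (ext W a)) (ext W b) := inner_res W _ _
  have h2 : inner ℝ (TW H W b) a = ip (M H (ext W b)) (ext W a) := inner_res W _ _
  rw [h1, real_inner_comm, h2, ip_M, ip_comm]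

lemma aeval_compress {h : V →₀ ℝ} (hW : ∀ p : ℝ[X], (aeval (M H) p h).support ⊆ W) (p : ℝ[X]) :
    aeval (M H) p h = ext W (aeval (TW H W) p (res W h)) := by
  have hpow : ∀ j : ℕ, (M H ^ j) h = ext W ((TW H W ^ j) (res W h)) := by
    intro j
    induction j with
    | zero =>
      have := hW 1
      rw [map_one] at this
      simp only [pow_zero, Module.End.one_apply]
      exact (ext_res W this).symm
    | succ j ih =>
      have h1 := hW (X ^ (j + 1))
      rw [map_pow, aeval_X] at h1
      rw [← ext_res W h1]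
      rw [pow_succ', Module.End.mul_apply, ih, pow_succ', Module.End.mul_apply]
      rfl
  induction p using Polynomial.induction_on' with
  | add p q hp hq => rw [map_add, map_add, LinearMap.add_apply, LinearMap.add_apply, map_add, hp, hq]
  | monomial n r =>
    rw [aeval_monomial, aeval_monomial, Module.End.mul_apply, Module.End.mul_apply,
      Module.algebraMap_end_apply, Module.algebraMap_end_apply, map_smul, hpow]

end compress

/-- the larger root -/
noncomputable def lam (μ : ℝ) : ℝ := (μ + Real.sqrt (μ ^ 2 - 4)) / 2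

lemma lam_spec {μ : ℝ} (h : 2 < μ) : 1 < lam μ ∧ lam μ + (lam μ)⁻¹ = μ := by
  have h1 : 0 < μ ^ 2 - 4 := by nlinarith
  have h2 : 0 < Real.sqrt (μ ^ 2 - 4) := Real.sqrt_pos.2 h1
  have h3 : Real.sqrt (μ ^ 2 - 4) ^ 2 = μ ^ 2 - 4 := Real.sq_sqrt h1.le
  have h4 : 1 < lam μ := by unfold lam; linarith
  refine ⟨h4, ?_⟩
  have h5 : lam μ * lam μ - μ * lam μ + 1 = 0 := by
    unfold lam
    nlinarith
  have h6 : lam μ ≠ 0 := by linarith
  field_simp
  nlinarith

lemma Kp_eval {μ : ℝ} (h : 2 < μ) (n : ℕ) :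
    (Kp n).eval μ = (lam μ ^ n - (lam μ)⁻¹ ^ n) / (lam μ - (lam μ)⁻¹) ∧
    (Kp ((n : ℤ) + 1)).eval μ = (lam μ ^ (n + 1) - (lam μ)⁻¹ ^ (n + 1)) / (lam μ - (lam μ)⁻¹) := by
  obtain ⟨h1, h2⟩ := lam_spec h
  have h3 : (lam μ)⁻¹ < 1 := inv_lt_one_of_one_lt₀ h1
  have h4 : lam μ - (lam μ)⁻¹ ≠ 0 := by linarith
  have h5 : lam μ * (lam μ)⁻¹ = 1 := mul_inv_cancel₀ (by linarith)
  induction n with
  | zero =>
    refine ⟨by simp [Kp_zero], ?_⟩
    simp only [Nat.cast_zero, zero_add, Kp_one, eval_one, pow_one]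
    rw [div_self h4]
  | succ n ih =>
    refine ⟨by push_cast; exact ih.2, ?_⟩
    rw [Kp_succ]
    push_cast
    rw [show (n : ℤ) + 1 - 1 = n by ring, eval_sub, eval_mul, eval_X, ih.1, ih.2]
    rw [mul_div_assoc', ← sub_div]
    congr 1
    have e : μ * (lam μ ^ (n + 1) - (lam μ)⁻¹ ^ (n + 1)) =
        lam μ ^ (n + 2) + lam μ ^ n * (lam μ * (lam μ)⁻¹)
        - (lam μ)⁻¹ ^ n * (lam μ * (lam μ)⁻¹) - (lam μ)⁻¹ ^ (n + 2) := by
      generalize hl : lam μ = l at h2 ⊢
      rw [← h2]
      ring
    rw [e, h5]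
    ring


lemma aeval_eig {E : Type*} [AddCommGroup E] [Module ℝ E] (T : Module.End ℝ E) {e : E} {μ : ℝ}
    (h : T e = μ • e) (p : ℝ[X]) : aeval T p e = p.eval μ • e := by
  induction p using Polynomial.induction_on' with
  | add p q hp hq => rw [map_add, LinearMap.add_apply, hp, hq, eval_add, add_smul]
  | monomial n r =>
    rw [aeval_monomial, eval_monomial, Module.End.mul_apply, Module.algebraMap_end_apply]
    have : ∀ n : ℕ, (T ^ n) e = μ ^ n • e := by
      intro n
      induction n with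
      | zero => simp
      | succ n ih =>
        rw [pow_succ', Module.End.mul_apply, ih, map_smul, h, smul_smul, pow_succ]
    rw [this, smul_smul]

lemma spec {u u' : V} (huu : u ≠ u')
    (hh : Alg H (Finsupp.single u 1 - Finsupp.single u' 1)) :
    ∃ (W : Finset V) (Λ τ C : ℝ) (q : V → ℝ),
      (∀ n : ℤ, (Ko H n (Finsupp.single u 1 - Finsupp.single u' 1)).support ⊆ W) ∧
      (∀ x, x ∉ W → q x = 0) ∧ 1 ≤ τ ∧ τ < Λ ∧ 0 ≤ C ∧
      (∀ (n : ℕ) (x : V),
        |Ko H n (Finsupp.single u 1 - Finsupp.single u' 1) x - q x * Λ ^ n| ≤ C * τ ^ n) ∧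
      q u ≠ 0 ∧ q u' ≠ 0 := by
  classical
  obtain ⟨W, hW⟩ := alg_support H hh
  set h : V →₀ ℝ := Finsupp.single u 1 - Finsupp.single u' 1 with hdef
  have hT := TW_symm H W
  let N := Module.finrank ℝ (EuclideanSpace ℝ W)
  have hN : Module.finrank ℝ (EuclideanSpace ℝ W) = N := rfl
  let e := hT.eigenvectorBasis hN
  let μ : Fin N → ℝ := hT.eigenvalues hN
  have hTe : ∀ i, TW H W (e i) = μ i • e i := fun i => hT.apply_eigenvectorBasis hN i
  let c : Fin N → ℝ := fun i => inner ℝ (e i) (res W h)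
  let E : Fin N → V → ℝ := fun i x => ext W (e i) x
  have hres : ∑ i, c i • e i = res W h := e.sum_repr' (res W h)
  have hKo : ∀ (n : ℤ) (x : V), Ko H n h x = ∑ i, c i * (Kp n).eval (μ i) * E i x := by
    intro n x
    have e1 : Ko H n h = ext W (aeval (TW H W) (Kp n) (res W h)) := aeval_compress H W hW (Kp n)
    rw [e1, ← hres, map_sum, map_sum, Finsupp.coe_finsetSum, Finset.sum_apply]
    apply Finset.sum_congr rfl
    intro i _
    rw [map_smul, aeval_eig _ (hTe i), smul_smul, map_smul, Finsupp.smul_apply, smul_eq_mul]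
  -- eigenvalues exceed 2
  have hresext : ∀ a : EuclideanSpace ℝ W, res W (ext W a) = a := by
    intro a
    ext x
    rw [res_apply, ext_mem]
  have hμ : ∀ i, 2 < μ i := by
    intro i
    have h1 : inner ℝ (e i) (e i) = (1 : ℝ) := by
      rw [real_inner_self_eq_norm_sq, e.norm_eq_one]; norm_num
    have h2 : ip (ext W (e i)) (ext W (e i)) = 1 := by
      rw [← inner_res, hresext]
      exact h1
    have h3 : ip (M H (ext W (e i))) (ext W (e i)) = μ i := by
      rw [← inner_res]
      change inner ℝ (TW H W (e i)) (e i) = μ i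
      rw [hTe, real_inner_smul_left, h1, mul_one]
    have h4 : ip (ext W (e i)) (L H (ext W (e i))) = μ i - 2 := by
      rw [L_eq, ip_sub_right, ip_smul_right, h2, ip_comm, h3]
      ring
    have h5 := ip_L_nonneg H (ext W (e i))
    have h6 : ip (ext W (e i)) (L H (ext W (e i))) ≠ 0 := by
      intro h7
      have := L_inj H _ h7
      rw [this] at h2
      unfold ip at h2
      rw [ev_zero] at h2
      norm_num at h2
    rw [h4] at h5 h6
    have : μ i - 2 > 0 := lt_of_le_of_ne h5 (Ne.symm h6)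
    linarith
  let l : Fin N → ℝ := fun i => lam (μ i)
  have hl1 : ∀ i, 1 < l i := fun i => (lam_spec (hμ i)).1
  have hli : ∀ i, (l i)⁻¹ < 1 := fun i => inv_lt_one_of_one_lt₀ (hl1 i)
  have hli0 : ∀ i, 0 < (l i)⁻¹ := fun i => inv_pos.2 (by linarith [hl1 i])
  let D : Fin N → ℝ := fun i => l i - (l i)⁻¹
  have hD : ∀ i, 0 < D i := fun i => by
    show 0 < l i - (l i)⁻¹
    linarith [hl1 i, hli i]
  have hKp : ∀ (n : ℕ) i, (Kp n).eval (μ i) = (l i ^ n - (l i)⁻¹ ^ n) / D i :=
    fun n i => (Kp_eval (hμ i) n).1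
  have hE : ∀ i x, |E i x| ≤ 1 := by
    intro i x
    show |ext W (e i) x| ≤ 1
    rw [ext_apply]
    split_ifs with hx
    · have := PiLp.norm_apply_le (e i) (⟨x, hx⟩ : W)
      rw [e.norm_eq_one, Real.norm_eq_abs] at this
      exact this
    · simp
  have hE0 : ∀ i x, x ∉ W → E i x = 0 := by
    intro i x hx
    show ext W (e i) x = 0
    rw [ext_apply, dif_neg hx]
  have hc : ∀ i, c i = E i u - E i u' := by
    intro i
    show inner ℝ (e i) (res W h) = ext W (e i) u - ext W (e i) u'
    rw [real_inner_comm, inner_res, hdef, ip_sub_left, ip_single_left, ip_single_left, one_mul,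
      one_mul]
  -- the dominating root
  have hne : (Finset.univ.filter (fun i => c i ≠ 0)).Nonempty := by
    by_contra hcon
    rw [Finset.not_nonempty_iff_eq_empty, Finset.filter_eq_empty_iff] at hcon
    have h0 : res W h = 0 := by
      rw [← hres]
      apply Finset.sum_eq_zero
      intro i hi
      have := hcon hi
      push Not at this
      rw [this, zero_smul]
    have h1 : h = 0 := by
      have h2 := hW 1
      rw [map_one] at h2
      rw [← ext_res W (b := h) h2, h0, map_zero]
    have h2 : h u = 1 := by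
      rw [hdef, Finsupp.sub_apply, Finsupp.single_apply, Finsupp.single_apply]
      rw [if_pos rfl, if_neg (Ne.symm huu)]
      norm_num
    rw [h1] at h2
    simp at h2
  obtain ⟨i0, hi0, hmax⟩ := Finset.exists_max_image _ l hne
  rw [Finset.mem_filter] at hi0
  obtain ⟨Λ, hΛ⟩ : ∃ Λ, Λ = l i0 := ⟨_, rfl⟩
  have hΛ1 : 1 < Λ := by rw [hΛ]; exact hl1 i0
  have hmax' : ∀ i, c i ≠ 0 → l i ≤ Λ := by
    intro i hi
    rw [hΛ]
    exact hmax i (Finset.mem_filter.2 ⟨Finset.mem_univ _, hi⟩)
  obtain ⟨τ, hτ1, hτΛ, hτ⟩ : ∃ τ : ℝ, 1 ≤ τ ∧ τ < Λ ∧ ∀ i, l i < Λ → l i ≤ τ := by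
    let S : Finset ℝ := insert 1 ((Finset.univ.filter (fun i => l i < Λ)).image l)
    have hS : S.Nonempty := ⟨1, Finset.mem_insert_self _ _⟩
    refine ⟨S.max' hS, S.le_max' 1 (Finset.mem_insert_self _ _), ?_, ?_⟩
    · have := S.max'_mem hS
      rw [Finset.mem_insert, Finset.mem_image] at this
      rcases this with h1 | ⟨i, hi, h1⟩
      · rw [h1]; exact hΛ1
      · rw [← h1]
        exact (Finset.mem_filter.1 hi).2
    · intro i hi
      apply S.le_max'
      rw [Finset.mem_insert, Finset.mem_image]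
      exact Or.inr ⟨i, Finset.mem_filter.2 ⟨Finset.mem_univ _, hi⟩, rfl⟩
  let q : V → ℝ := fun x => ∑ i, if l i = Λ then c i * E i x / D i else 0
  have hbound : ∀ (n : ℕ) (x : V), |Ko H n h x - q x * Λ ^ n| ≤ (∑ i, |c i| / D i) * τ ^ n := by
    intro n x
    have e1 : Ko H n h x - q x * Λ ^ n = ∑ i, (c i * (Kp n).eval (μ i) * E i x -
        (if l i = Λ then c i * E i x / D i else 0) * Λ ^ n) := by
      rw [hKo, Finset.sum_sub_distrib, Finset.sum_mul]
    rw [e1, Finset.sum_mul]
    refine (Finset.abs_sum_le_sum_abs _ _).trans (Finset.sum_le_sum ?_)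
    intro i _
    rw [hKp]
    have hp1 : (l i)⁻¹ ^ n ≤ 1 := pow_le_one₀ (hli0 i).le (hli i).le
    have hp0 : 0 < (l i)⁻¹ ^ n := pow_pos (hli0 i) n
    have hp2 : 1 ≤ l i ^ n := one_le_pow₀ (hl1 i).le
    have hp3 : 1 ≤ τ ^ n := one_le_pow₀ hτ1
    have key : ∀ t : ℝ, |t| ≤ τ ^ n → |c i * (t / D i) * E i x| ≤ |c i| / D i * τ ^ n := by
      intro t ht
      rw [abs_mul, abs_mul, abs_div, abs_of_pos (hD i)]
      have h1 : |c i| * (|t| / D i) * |E i x| ≤ |c i| * (|t| / D i) * 1 :=
        mul_le_mul_of_nonneg_left (hE i x) (by have := hD i; positivity)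
      have h2 : |c i| * (|t| / D i) * 1 = |c i| / D i * |t| := by ring
      rw [h2] at h1
      exact h1.trans (mul_le_mul_of_nonneg_left ht (by have := hD i; positivity))
    by_cases h1 : l i = Λ
    · rw [if_pos h1, ← h1]
      have e2 : c i * ((l i ^ n - (l i)⁻¹ ^ n) / D i) * E i x - c i * E i x / D i * l i ^ n =
          c i * ((-(l i)⁻¹ ^ n) / D i) * E i x := by ring
      rw [e2]
      apply key
      rw [abs_neg, abs_of_pos hp0]
      exact hp1.trans hp3
    · rw [if_neg h1, zero_mul, sub_zero]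
      by_cases h2 : c i = 0
      · rw [h2]
        simp
      · apply key
        have h3 := hmax' i h2
        have h4 := hτ i (lt_of_le_of_ne h3 h1)
        rw [abs_of_nonneg (by linarith)]
        have h5 : l i ^ n ≤ τ ^ n := pow_le_pow_left₀ (by linarith [hl1 i]) h4 n
        linarith
  have hC0 : 0 ≤ ∑ i, |c i| / D i :=
    Finset.sum_nonneg (fun i _ => by have := hD i; positivity)
  -- values at u and u'
  have hdiff : q u - q u' = ∑ i, if l i = Λ then c i ^ 2 / D i else 0 := by
    show (∑ i, if l i = Λ then c i * E i u / D i else 0) -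
      (∑ i, if l i = Λ then c i * E i u' / D i else 0) = _
    rw [← Finset.sum_sub_distrib]
    apply Finset.sum_congr rfl
    intro i _
    by_cases h1 : l i = Λ
    · rw [if_pos h1, if_pos h1, if_pos h1]
      have := hc i
      rw [show c i ^ 2 = c i * (E i u - E i u') by rw [← this]; ring]
      ring
    · rw [if_neg h1, if_neg h1, if_neg h1]; ring
  have hpos : 0 < q u - q u' := by
    rw [hdiff]
    apply Finset.sum_pos'
    · intro i _
      split_ifs
      · have := hD i; positivity
      · exact le_refl _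
    · refine ⟨i0, Finset.mem_univ _, ?_⟩
      rw [if_pos hΛ.symm]
      have := hD i0
      have h2 := hi0.2
      positivity
  have hsum : q u + q u' = 0 := by
    have h1 : ∀ n : ℕ, |q u + q u'| * Λ ^ n ≤ 2 * (∑ i, |c i| / D i) * τ ^ n := by
      intro n
      have a1 := hbound n u
      have a2 := hbound n u'
      have a3 : Ko H n h u + Ko H n h u' = 0 := by
        have b1 : Ko H n h u = k H n u u - k H n u' u := by
          rw [hdef, map_sub, Finsupp.sub_apply]; rfl
        have b2 : Ko H n h u' = k H n u u' - k H n u' u' := by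
          rw [hdef, map_sub, Finsupp.sub_apply]; rfl
        rw [b1, b2, k_symm H n u' u, k_diag_const H n u' u]
        ring
      have a4 : (q u + q u') * Λ ^ n = -((Ko H n h u - q u * Λ ^ n) + (Ko H n h u' - q u' * Λ ^ n)) := by
        linarith
      have a5 : |q u + q u'| * Λ ^ n = |(q u + q u') * Λ ^ n| := by
        rw [abs_mul, abs_of_pos (pow_pos (by linarith) n : 0 < Λ ^ n)]
      rw [a5, a4, abs_neg]
      refine (abs_add_le _ _).trans ?_
      linarith
    by_contra hcon
    have hpos' : 0 < |q u + q u'| := abs_pos.2 hcon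
    have hlim : Filter.Tendsto (fun n : ℕ => 2 * (∑ i, |c i| / D i) * (τ / Λ) ^ n)
        Filter.atTop (nhds (2 * (∑ i, |c i| / D i) * 0)) := by
      apply Filter.Tendsto.const_mul
      apply tendsto_pow_atTop_nhds_zero_of_lt_one
      · positivity
      · rw [div_lt_one (by linarith)]; exact hτΛ
    rw [mul_zero] at hlim
    have hev := (hlim.eventually (gt_mem_nhds hpos')).exists
    obtain ⟨n, hn⟩ := hev
    have h2 := h1 n
    have h3 : 0 < Λ ^ n := pow_pos (by linarith) n
    rw [div_pow, mul_div_assoc', div_lt_iff₀ h3] at hn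
    linarith
  refine ⟨W, Λ, τ, ∑ i, |c i| / D i, q, ?_, ?_, hτ1, hτΛ, hC0, hbound, ?_, ?_⟩
  · intro n
    exact hW (Kp n)
  · intro x hx
    apply Finset.sum_eq_zero
    intro i _
    rw [hE0 i x hx]
    split_ifs <;> simp
  · intro h0
    rw [h0] at hpos hsum
    linarith
  · intro h0
    rw [h0] at hpos hsum
    linarith

end Pool.Agent.MP_0f2988_co
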