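import Pool.Agent.Lib.MP_0f2988_co.Ext

set_option autoImplicit false
set_option maxHeartbeats 4000000

namespace Pool.Agent.MP_0f2988_co

universe u

variable {V : Type u} (H : RG V)

def rr (f : V → ℤ) : V → ℝ := fun x => (f x : ℝ)

lemma D_f (u : V) (n : ℤ) (u' : V) (n' : ℤ) (v : V) :
    D H u n u' n' (Finsupp.single v (1 : ℝ)) (fun _ => 0) = - za H u (n - 1) u' (n' - 1) v := by
  unfold D
  have h1 : ev (za H u n u' n') (fun _ => 0) = 0 := by
    rw [ev_eq_sum _ _ _ (le_refl _)]; simp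
  have h2 : ev (za H u (n - 1) u' (n' - 1)) (Finsupp.single v (1 : ℝ)) =
      za H u (n - 1) u' (n' - 1) v := by
    have := ip_single_right v 1 (za H u (n - 1) u' (n' - 1))
    rw [one_mul] at this
    exact this
  rw [h1, h2, zero_sub]

lemma D_g (u : V) (n : ℤ) (u' : V) (n' : ℤ) (v : V) :
    D H u n u' n' (fun _ => 0) (Finsupp.single v (1 : ℝ)) = za H u n u' n' v := by
  unfold D
  have h1 : ev (za H u (n - 1) u' (n' - 1)) (fun _ => 0) = 0 := by
    rw [ev_eq_sum _ _ _ (le_refl _)]; simp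
  have h2 : ev (za H u n u' n') (Finsupp.single v (1 : ℝ)) = za H u n u' n' v := by
    have := ip_single_right v 1 (za H u n u' n')
    rw [one_mul] at this
    exact this
  rw [h1, h2, sub_zero]

lemma Q_single {u u' : V} (S : SD H u u') (v : V) : S.Q (Finsupp.single v (1 : ℝ)) = S.q v := by
  classical
  unfold SD.Q
  by_cases hv : v ∈ S.W
  · rw [Finset.sum_eq_single v]
    · simp
    · intro b _ hb
      rw [Finsupp.single_eq_of_ne hb, mul_zero]
    · intro h; exact absurd hv h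
  · rw [S.hq v hv]
    apply Finset.sum_eq_zero
    intro x hx
    rw [Finsupp.single_eq_of_ne (by rintro rfl; exact hv hx), mul_zero]

lemma Q_zero {u u' : V} (S : SD H u u') : S.Q (fun _ => 0) = 0 := by
  unfold SD.Q; simp

lemma za_diag_ne {u u' : V} (huu : u ≠ u') {n : ℤ} (hn : n ≠ 0) :
    za H u n u' n u ≠ 0 ∧ za H u n u' n u' ≠ 0 := by
  have hN : 1 ≤ n.natAbs := by omega
  constructor
  · rw [za_apply]
    intro h
    have h1 := k_abs_lt H hN u huu.symm
    rw [← k_natAbs, ← sub_eq_zero.1 h, k_natAbs] at h1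
    exact absurd h1 (not_lt.2 (le_abs_self _))
  · rw [za_apply]
    intro h
    have h1 := k_abs_lt H hN u' huu
    rw [← k_natAbs, sub_eq_zero.1 h, k_natAbs] at h1
    exact absurd h1 (not_lt.2 (le_abs_self _))

lemma za_diag_zero {u u' : V} (huu : u ≠ u') {n : ℤ} {v : V} (hv : v = u ∨ v = u')
    (h : za H u n u' n v = 0) : n = 0 := by
  by_contra hn
  rcases hv with rfl | rfl
  · exact (za_diag_ne H huu hn).1 h
  · exact (za_diag_ne H huu hn).2 h

/-- the value at `(u, n)` -/
noncomputable def val (u : V) (n : ℤ) (f g : V → ℝ) : ℝ :=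
  ev (Ko H n (Finsupp.single u 1)) g - ev (Ko H (n - 1) (Finsupp.single u 1)) f

lemma D_eq_val (u : V) (n : ℤ) (u' : V) (n' : ℤ) (f g : V → ℝ) :
    D H u n u' n' f g = val H u n f g - val H u' n' f g := by
  unfold D val za
  rw [ev_sub, ev_sub]
  ring

lemma val_zero (u : V) (f g : V → ℝ) : val H u 0 f g = f u := by
  unfold val
  rw [Ko_zero, show (0 : ℤ) - 1 = -1 by norm_num, Ko_neg, Ko_one, LinearMap.zero_apply, ev_zero,
    LinearMap.neg_apply, Module.End.one_apply, ev_neg, ev_single]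
  ring

lemma val_one (u : V) (f g : V → ℝ) : val H u 1 f g = g u := by
  unfold val
  rw [Ko_one, show (1 : ℤ) - 1 = 0 by norm_num, Ko_zero, LinearMap.zero_apply, ev_zero,
    Module.End.one_apply, ev_single]
  ring

structure Inv (W : Finset V) (f g : V → ℤ) : Prop where
  zf : ∀ x, x ∉ W → f x = 0
  zg : ∀ x, x ∉ W → g x = 0
  I1 : ∀ P ∈ pairs H W, D H P.1 P.2.1 P.2.2.1 P.2.2.2 (rr f) (rr g) ≠ 0
  I2 : ∀ u u' (huu : u ≠ u') (hh : Alg H (Finsupp.single u 1 - Finsupp.single u' 1)),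
    u ∈ W → u' ∈ W → (∀ n, D H u n u' n (rr f) (rr g) ≠ 0) ∧
      (sd H huu hh).Λ * (sd H huu hh).Q (rr g) - (sd H huu hh).Q (rr f) ≠ 0 ∧
      (sd H huu hh).Λ * (sd H huu hh).Q (rr f) - (sd H huu hh).Q (rr g) ≠ 0

structure Mid [DecidableEq V] (W : Finset V) (v : V) (f g : V → ℤ) : Prop where
  zf : ∀ x, x ∉ insert v W → f x = 0
  zg : ∀ x, x ∉ W → g x = 0
  M1 : ∀ P ∈ pairs H (insert v W), za H P.1 P.2.1 P.2.2.1 P.2.2.2 v = 0 →
    D H P.1 P.2.1 P.2.2.1 P.2.2.2 (rr f) (rr g) ≠ 0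
  M2 : ∀ u u' (huu : u ≠ u') (hh : Alg H (Finsupp.single u 1 - Finsupp.single u' 1)),
    u ∈ insert v W → u' ∈ insert v W →
      (∀ n, za H u n u' n v = 0 → D H u n u' n (rr f) (rr g) ≠ 0) ∧
      ((sd H huu hh).q v ≠ 0 ∨
        ((sd H huu hh).Λ * (sd H huu hh).Q (rr g) - (sd H huu hh).Q (rr f) ≠ 0 ∧
        (sd H huu hh).Λ * (sd H huu hh).Q (rr f) - (sd H huu hh).Q (rr g) ≠ 0))

lemma rr_update [DecidableEq V] {f : V → ℤ} {v : V} (hv : f v = 0) (t : ℤ) :
    rr (Function.update f v t) = fun x => rr f x + (t : ℝ) * (Finsupp.single v (1 : ℝ)) x := by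
  ext x
  unfold rr
  by_cases hx : x = v
  · subst hx
    rw [Function.update_self, hv]
    simp
  · rw [Function.update_of_ne hx, Finsupp.single_eq_of_ne hx]
    simp

lemma rr_add_zero (f : V → ℤ) (t : ℝ) : (fun x => rr f x + t * (fun _ : V => (0 : ℝ)) x) = rr f := by
  ext x; simp

lemma core [DecidableEq V] {W : Finset V} {v : V} (hv : v ∉ W) {f g : V → ℤ}
    (hM : Mid H W v f g) : ∃ t : ℤ, Inv H (insert v W) f (Function.update g v t) := by
  obtain ⟨t, ht1, ht2⟩ := choose_t H (pairs H (insert v W)) (pairs_finite H _) (insert v W)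
    (rr f) (rr g) (fun _ => 0) (Finsupp.single v (1 : ℝ)) (by
      intro u u' huu hh hu hu'
      have hΛ : (sd H huu hh).Λ ≠ 0 := by
        have h1 := (sd H huu hh).h1
        have h2 := (sd H huu hh).h2
        linarith
      rw [Q_single, Q_zero, sub_zero, mul_zero, zero_sub]
      rcases (hM.M2 u u' huu hh hu hu').2 with h | ⟨h, h'⟩
      · exact ⟨Or.inl (mul_ne_zero hΛ h), Or.inl (neg_ne_zero.2 h)⟩
      · exact ⟨Or.inr h, Or.inr h'⟩)
  refine ⟨t, ?_⟩
  have hupd := rr_update (hM.zg v hv) (t : ℤ)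
  rw [Int.cast_natCast] at hupd
  constructor
  · exact hM.zf
  · intro x hx
    rw [Finset.mem_insert, not_or] at hx
    rw [Function.update_of_ne hx.1]
    exact hM.zg x hx.2
  · intro P hP
    have h := ht1 P hP
    rw [rr_add_zero, ← hupd, D_g] at h
    by_cases h0 : za H P.1 P.2.1 P.2.2.1 P.2.2.2 v = 0
    · have h1 := hM.M1 P hP h0
      rw [hupd]
      have h2 := D_lin H P.1 P.2.1 P.2.2.1 P.2.2.2 (rr f) (rr g) (fun _ => 0)
        (Finsupp.single v (1 : ℝ)) t
      rw [rr_add_zero, D_g, h0, mul_zero, add_zero] at h2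
      rw [h2]
      exact h1
    · exact h h0
  · intro u u' huu hh hu hu'
    obtain ⟨h1, h2, h3⟩ := ht2 u u' huu hh hu hu'
    rw [rr_add_zero, ← hupd] at h2 h3
    refine ⟨?_, h2, h3⟩
    intro n
    have h := h1 n
    rw [rr_add_zero, ← hupd, D_g] at h
    by_cases h0 : za H u n u' n v = 0
    · have h1 := (hM.M2 u u' huu hh hu hu').1 n h0
      rw [hupd]
      have h2 := D_lin H u n u' n (rr f) (rr g) (fun _ => 0)
        (Finsupp.single v (1 : ℝ)) t
      rw [rr_add_zero, D_g, h0, mul_zero, add_zero] at h2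
      rw [h2]
      exact h1
    · exact h h0

lemma supp_erase [DecidableEq V] {a : V →₀ ℝ} {v : V} {W : Finset V} (h : a.support ⊆ insert v W)
    (h0 : a v = 0) : a.support ⊆ W := by
  intro x hx
  rcases Finset.mem_insert.1 (h hx) with h1 | h1
  · subst h1
    exact absurd h0 (Finsupp.mem_support_iff.1 hx)
  · exact h1

lemma mid_of_inv [DecidableEq V] {W : Finset V} {v : V} (hv : v ∉ W) {f g : V → ℤ}
    (hI : Inv H W f g) : ∃ t : ℤ, Mid H W v (Function.update f v t) g := by
  have hq : ∀ u u' (huu : u ≠ u') (hh : Alg H (Finsupp.single u 1 - Finsupp.single u' 1)),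
      u ∈ insert v W → u' ∈ insert v W → (sd H huu hh).q v = 0 → u ∈ W ∧ u' ∈ W := by
    intro u u' huu hh hu hu' h0
    constructor
    · rcases Finset.mem_insert.1 hu with h | h
      · exfalso
        exact (sd H huu hh).h5 ((congrArg (sd H huu hh).q h).trans h0)
      · exact h
    · rcases Finset.mem_insert.1 hu' with h | h
      · exfalso
        exact (sd H huu hh).h6 ((congrArg (sd H huu hh).q h).trans h0)
      · exact h
  obtain ⟨t, ht1, ht2⟩ := choose_t H (pairs H (insert v W)) (pairs_finite H _) (insert v W)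
    (rr f) (rr g) (Finsupp.single v (1 : ℝ)) (fun _ => 0) (by
      intro u u' huu hh hu hu'
      have hΛ : (sd H huu hh).Λ ≠ 0 := by
        have h1 := (sd H huu hh).h1
        have h2 := (sd H huu hh).h2
        linarith
      rw [Q_single, Q_zero, sub_zero, mul_zero, zero_sub]
      by_cases h0 : (sd H huu hh).q v = 0
      · obtain ⟨a1, a2⟩ := hq u u' huu hh hu hu' h0
        obtain ⟨_, a3, a4⟩ := hI.I2 u u' huu hh a1 a2
        exact ⟨Or.inr a3, Or.inr a4⟩
      · exact ⟨Or.inl (neg_ne_zero.2 h0), Or.inl (mul_ne_zero hΛ h0)⟩)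
  refine ⟨t, ?_⟩
  have hupd := rr_update (hI.zf v hv) (t : ℤ)
  rw [Int.cast_natCast] at hupd
  constructor
  · intro x hx
    rw [Finset.mem_insert, not_or] at hx
    rw [Function.update_of_ne hx.1]
    exact hI.zf x hx.2
  · exact hI.zg
  · intro P hP hz
    have h := ht1 P hP
    rw [rr_add_zero, ← hupd, D_f] at h
    by_cases h0 : za H P.1 (P.2.1 - 1) P.2.2.1 (P.2.2.2 - 1) v = 0
    · have h1 := hI.I1 P ⟨hP.1, hP.2.1, supp_erase hP.2.2.1 hz, supp_erase hP.2.2.2 h0⟩
      rw [hupd]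
      have h2 := D_lin H P.1 P.2.1 P.2.2.1 P.2.2.2 (rr f) (rr g) (Finsupp.single v (1 : ℝ))
        (fun _ => 0) t
      rw [rr_add_zero, D_f, h0, neg_zero, mul_zero, add_zero] at h2
      rw [h2]
      exact h1
    · exact h (neg_ne_zero.2 h0)
  · intro u u' huu hh hu hu'
    obtain ⟨h1, h2, h3⟩ := ht2 u u' huu hh hu hu'
    rw [rr_add_zero, ← hupd] at h2 h3
    refine ⟨?_, Or.inr ⟨h2, h3⟩⟩
    intro n hn
    have h := h1 n
    rw [rr_add_zero, ← hupd, D_f] at h
    by_cases h0 : za H u (n - 1) u' (n - 1) v = 0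
    · have hv' : ¬ (v = u ∨ v = u') := by
        intro hv'
        have e1 := za_diag_zero H huu hv' hn
        have e2 := za_diag_zero H huu hv' h0
        omega
      rw [not_or] at hv'
      have hu1 : u ∈ W := by
        rcases Finset.mem_insert.1 hu with h | h
        · exact absurd h.symm hv'.1
        · exact h
      have hu2 : u' ∈ W := by
        rcases Finset.mem_insert.1 hu' with h | h
        · exact absurd h.symm hv'.2
        · exact h
      have h1 := (hI.I2 u u' huu hh hu1 hu2).1 n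
      rw [hupd]
      have h2 := D_lin H u n u' n (rr f) (rr g) (Finsupp.single v (1 : ℝ))
        (fun _ => 0) t
      rw [rr_add_zero, D_f, h0, neg_zero, mul_zero, add_zero] at h2
      rw [h2]
      exact h1
    · exact h (neg_ne_zero.2 h0)

lemma add_vertex [DecidableEq V] {W : Finset V} {v : V} (hv : v ∉ W) {f g : V → ℤ}
    (hI : Inv H W f g) : ∃ s t : ℤ, Inv H (insert v W) (Function.update f v s)
      (Function.update g v t) := by
  obtain ⟨s, hs⟩ := mid_of_inv H hv hI
  obtain ⟨t, ht⟩ := core H hv hs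
  exact ⟨s, t, ht⟩

end Pool.Agent.MP_0f2988_co
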