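import Pool.Agent.Lib.MP_0f2988_co.Step

set_option autoImplicit false
set_option maxHeartbeats 4000000

namespace Pool.Agent.MP_0f2988_co

universe u

variable {V : Type u} (H : RG V)

lemma k_zero_int {m : ℤ} {u x : V} (h : m.natAbs ≤ H.G.dist u x) : k H m u x = 0 := by
  have h1 := k_natAbs H m u x
  rw [k_eq_zero_of_le H h, abs_zero] at h1
  exact abs_eq_zero.1 h1

lemma Ko_apply (m : ℤ) (u x : V) : Ko H m (Finsupp.single u 1) x = k H m u x := rfl

lemma D_swap (u : V) (n : ℤ) (u' : V) (n' : ℤ) (f g : V → ℝ) :
    D H u n u' n' f g = - D H u' n' u n f g := by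
  rw [D_eq_val, D_eq_val]; ring

lemma ev_upd {a : V →₀ ℝ} {v : V} (h0 : a v = 0) (f : V → ℝ) (t : ℝ) :
    ev a (fun x => f x + t * (Finsupp.single v (1 : ℝ)) x) = ev a f := by
  rw [ev_right]
  have : ev a (Finsupp.single v (1 : ℝ)) = a v := by
    have := ip_single_right v 1 a
    rw [one_mul] at this
    exact this
  rw [this, h0]; ring

/-- value step -/
lemma add_value [DecidableEq V] {W : Finset V} {f g : V → ℤ} (hI : Inv H W f g) (c : ℤ)
    (hc : ∀ u n, (Ko H n (Finsupp.single u 1)).support ⊆ W →
      (Ko H (n - 1) (Finsupp.single u 1)).support ⊆ W → val H u n (rr f) (rr g) ≠ c) :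
    ∃ v, v ∉ W ∧ ∃ t : ℤ, Inv H (insert v W) (Function.update f v c)
      (Function.update g v t) := by
  have hinf := H.inf
  obtain ⟨B, b, hWB, hB⟩ := finite_pairs H W
  obtain ⟨R, hR⟩ := finset_bound (fun x y => H.G.dist x y) W
  have hA1 : (⋃ x ∈ (B : Set V), {y | H.G.dist x y ≤ b + R + 5}).Finite :=
    Set.Finite.biUnion B.finite_toSet (fun x _ => ball_finite H x _)
  have hA2 : (⋃ p ∈ ((W ×ˢ W : Finset (V × V)) : Set (V × V)),
      {y | ∃ (huu : p.1 ≠ p.2) (hh : Alg H (Finsupp.single p.1 1 - Finsupp.single p.2 1)),
        y ∈ (sd H huu hh).W}).Finite := by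
    apply Set.Finite.biUnion (Finset.finite_toSet _)
    rintro ⟨u, u'⟩ _
    by_cases huu : u ≠ u'
    · by_cases hh : Alg H (Finsupp.single u 1 - Finsupp.single u' 1)
      · apply ((sd H huu hh).W.finite_toSet).subset
        rintro y ⟨_, _, h⟩
        exact h
      · apply Set.finite_empty.subset
        rintro y ⟨_, h, _⟩
        exact absurd h hh
    · apply Set.finite_empty.subset
      rintro y ⟨h, _⟩
      exact absurd h huu
  obtain ⟨v, hv⟩ := (hA1.union hA2).exists_notMem
  rw [Set.mem_union, not_or] at hv
  obtain ⟨hv1, hv2⟩ := hv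
  have hd : ∀ x ∈ B, b + R + 5 < H.G.dist x v := by
    intro x hx
    by_contra h
    apply hv1
    exact Set.mem_biUnion (Finset.mem_coe.2 hx) (not_lt.1 h)
  have hvB : v ∉ B := by
    intro h
    have := hd v h
    rw [SimpleGraph.dist_self] at this
    omega
  have hvW : v ∉ W := fun h => hvB (hWB h)
  have hq : ∀ u u' (huu : u ≠ u') (hh : Alg H (Finsupp.single u 1 - Finsupp.single u' 1)),
      u ∈ W → u' ∈ W → v ∉ (sd H huu hh).W := by
    intro u u' huu hh hu hu' h
    apply hv2
    have hmem : (u, u') ∈ ((W ×ˢ W : Finset (V × V)) : Set (V × V)) := by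
      simp only [Finset.mem_coe, Finset.mem_product]
      exact ⟨hu, hu'⟩
    exact Set.mem_biUnion hmem ⟨huu, hh, h⟩
  have hupd := rr_update (hI.zf v hvW) c
  -- determined values are unaffected
  have hval : ∀ u n, (Ko H n (Finsupp.single u 1)).support ⊆ W →
      (Ko H (n - 1) (Finsupp.single u 1)).support ⊆ W →
      val H u n (rr (Function.update f v c)) (rr g) ≠ c := by
    intro u n h1 h2
    have h3 : (Ko H (n - 1) (Finsupp.single u 1)) v = 0 := by
      by_contra h
      exact hvW (h2 (Finsupp.mem_support_iff.2 h))
    have e : val H u n (rr (Function.update f v c)) (rr g) = val H u n (rr f) (rr g) := by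
      rw [hupd]
      unfold val
      rw [ev_upd h3]
    rw [e]
    exact hc u n h1 h2
  have hvalv : val H v 0 (rr (Function.update f v c)) (rr g) = c := by
    rw [val_zero]
    unfold rr
    rw [Function.update_self]
  have hdet0 : ∀ u, u ∈ W → (Ko H 0 (Finsupp.single u 1)).support ⊆ W ∧
      (Ko H (0 - 1) (Finsupp.single u 1)).support ⊆ W := by
    intro u hu
    constructor
    · rw [Ko_zero]; simp
    · rw [show (0 : ℤ) - 1 = -1 by norm_num, Ko_neg, Ko_one]
      intro x hx
      rw [Finsupp.mem_support_iff] at hx
      have : x = u := by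
        by_contra h
        apply hx
        rw [LinearMap.neg_apply, Module.End.one_apply, Finsupp.neg_apply,
          Finsupp.single_eq_of_ne h, neg_zero]
      rw [this]; exact hu
  have key : ∀ u u' n', (u, (0 : ℤ)) ≠ (u', n') → (za H u 0 u' n').support ⊆ W →
      (za H u (0 - 1) u' (n' - 1)).support ⊆ insert v W → za H u (0 - 1) u' (n' - 1) v ≠ 0 →
      D H u 0 u' n' (rr (Function.update f v c)) (rr g) ≠ 0 := by
    intro u u' n' hne h1 h2 h3
    by_cases hn' : n' = 0
    · subst hn'
      have huu : u ≠ u' := fun h => hne (by rw [h])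
      have hv' : v = u ∨ v = u' := by
        by_contra hcon
        rw [not_or] at hcon
        apply h3
        rw [za_apply, show (0 : ℤ) - 1 = -1 by norm_num, k_neg, k_neg, k_one, k_one,
          Finsupp.single_eq_of_ne hcon.1, Finsupp.single_eq_of_ne hcon.2]
        ring
      rcases hv' with rfl | rfl
      · have hu' : u' ∈ W := by
          have : u' ∈ insert v W := by
            apply h2
            rw [Finsupp.mem_support_iff]
            exact (za_diag_ne H huu (by norm_num)).2
          rcases Finset.mem_insert.1 this with h | h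
          · exact absurd h.symm huu
          · exact h
        rw [D_eq_val, hvalv]
        intro h
        exact hval u' 0 (hdet0 u' hu').1 (hdet0 u' hu').2 (sub_eq_zero.1 h).symm
      · have hu' : u ∈ W := by
          have : u ∈ insert v W := by
            apply h2
            rw [Finsupp.mem_support_iff]
            exact (za_diag_ne H huu (by norm_num)).1
          rcases Finset.mem_insert.1 this with h | h
          · exact absurd h huu
          · exact h
        rw [D_eq_val, hvalv]
        intro h
        exact hval u 0 (hdet0 u hu').1 (hdet0 u hu').2 (sub_eq_zero.1 h)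
    · have h1' : (za H u' n' u 0).support ⊆ W := by rw [za_swap]; exact h1
      obtain ⟨hu', x, hx, hxd⟩ := strict_supp H (u := u') (u' := u) (n := n') (n' := 0)
        (by simp only [Int.natAbs_zero]; omega) h1'
      have h4 : H.G.dist u' x ≤ R := hR u' hu' x hx
      have h5 := hd u' (hWB hu')
      have h6 : k H (n' - 1) u' v = 0 := k_zero_int H (by omega)
      have huv : u = v := by
        by_contra h
        apply h3
        rw [za_apply, h6, show (0 : ℤ) - 1 = -1 by norm_num, k_neg, k_one,
          Finsupp.single_eq_of_ne (Ne.symm h)]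
        ring
      subst huv
      have h7 : (Ko H n' (Finsupp.single u' 1)).support ⊆ W := by
        have : za H u' n' u 0 = Ko H n' (Finsupp.single u' 1) := by
          unfold za
          rw [Ko_zero, LinearMap.zero_apply, sub_zero]
        rw [← this]; exact h1'
      have h8 : (Ko H (n' - 1) (Finsupp.single u' 1)).support ⊆ W := by
        intro y hy
        rw [Finsupp.mem_support_iff, Ko_apply] at hy
        have hyu : y ≠ u := by
          intro h
          rw [h] at hy
          exact hy h6
        have : y ∈ insert u W := by
          apply h2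
          rw [Finsupp.mem_support_iff, za_apply, show (0 : ℤ) - 1 = -1 by norm_num, k_neg, k_one,
            Finsupp.single_eq_of_ne hyu]
          intro h
          apply hy
          linarith
        rcases Finset.mem_insert.1 this with h | h
        · exact absurd h hyu
        · exact h
      rw [D_eq_val, hvalv]
      intro h
      exact hval u' n' h7 h8 (sub_eq_zero.1 h).symm
  refine ⟨v, hvW, ?_⟩
  apply core H hvW
  constructor
  · intro x hx
    rw [Finset.mem_insert, not_or] at hx
    rw [Function.update_of_ne hx.1]
    exact hI.zf x hx.2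
  · exact hI.zg
  · rintro ⟨u, n, u', n'⟩ ⟨hP1, hP2, hP3, hP4⟩ hz
    simp only at hP1 hP2 hP3 hP4 hz ⊢
    have hP3' := supp_erase hP3 hz
    by_cases h0 : za H u (n - 1) u' (n' - 1) v = 0
    · have h1 := hI.I1 (u, n, u', n') ⟨hP1, hP2, hP3', supp_erase hP4 h0⟩
      simp only at h1
      rw [hupd]
      unfold D at h1 ⊢
      rw [ev_upd h0]
      exact h1
    by_cases hn : n = 0
    · subst hn
      exact key u u' n' hP1 hP3' hP4 h0
    by_cases hn' : n' = 0
    · subst hn'
      rw [D_swap, neg_ne_zero]
      apply key u' u n hP1.symm
      · rw [za_swap]; exact hP3'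
      · rw [za_swap]; exact hP4
      · rw [za_apply] at h0 ⊢
        intro h
        apply h0
        linarith
    · exfalso
      obtain ⟨a1, a2, a3, a4⟩ := hB u n u' n' hn hn' hP1 hP2 hP3'
      apply h0
      have b1 := hd u a1
      have b2 := hd u' a2
      rw [za_apply, k_zero_int H (m := n - 1) (u := u) (x := v) (by omega),
        k_zero_int H (m := n' - 1) (u := u') (x := v) (by omega), sub_zero]
  · intro u u' huu hh hu hu'
    by_cases hv' : v = u ∨ v = u'
    · constructor
      · intro n hn
        have hn0 := za_diag_zero H huu hv' hn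
        subst hn0
        apply key u u' 0 (fun h => huu (by rw [Prod.mk.injEq] at h; exact h.1))
        · have : za H u 0 u' 0 = 0 := by unfold za; rw [Ko_zero]; simp
          rw [this]; simp
        · intro x hx
          rw [Finsupp.mem_support_iff] at hx
          by_contra hcon
          apply hx
          have e1 : x ≠ u := fun h => hcon (h ▸ hu)
          have e2 : x ≠ u' := fun h => hcon (h ▸ hu')
          rw [za_apply, show (0 : ℤ) - 1 = -1 by norm_num, k_neg, k_neg, k_one, k_one,
            Finsupp.single_eq_of_ne e1, Finsupp.single_eq_of_ne e2]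
          ring
        · intro h
          have := za_diag_zero H huu hv' h
          omega
      · left
        rcases hv' with h | h
        · intro h0
          exact (sd H huu hh).h5 ((congrArg (sd H huu hh).q h.symm).trans h0)
        · intro h0
          exact (sd H huu hh).h6 ((congrArg (sd H huu hh).q h.symm).trans h0)
    · rw [not_or] at hv'
      have hu1 : u ∈ W := by
        rcases Finset.mem_insert.1 hu with h | h
        · exact absurd h.symm hv'.1
        · exact h
      have hu2 : u' ∈ W := by
        rcases Finset.mem_insert.1 hu' with h | h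
        · exact absurd h.symm hv'.2
        · exact h
      obtain ⟨c1, c2, c3⟩ := hI.I2 u u' huu hh hu1 hu2
      have hvS := hq u u' huu hh hu1 hu2
      constructor
      · intro n _
        have h0 : za H u (n - 1) u' (n - 1) v = 0 := by
          by_contra h
          apply hvS
          apply (sd H huu hh).hW (n - 1)
          rw [diff_Ko]
          exact Finsupp.mem_support_iff.2 h
        have h1 := c1 n
        rw [hupd]
        unfold D at h1 ⊢
        rw [ev_upd h0]
        exact h1
      · right
        have e : (sd H huu hh).Q (rr (Function.update f v c)) = (sd H huu hh).Q (rr f) := by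
          rw [hupd, SD.Q_lin, Q_single, (sd H huu hh).hq v hvS]
          ring
        rw [e]
        exact ⟨c2, c3⟩

lemma inv_empty : Inv H (∅ : Finset V) (fun _ => 0) (fun _ => 0) := by
  classical
  constructor
  · intro x _; rfl
  · intro x _; rfl
  · rintro ⟨u, n, u', n'⟩ ⟨h1, h2, h3, h4⟩
    exfalso
    simp only at h1 h2 h3 h4
    rcases lt_trichotomy n.natAbs n'.natAbs with h | h | h
    · have := (strict_supp H (u := u') (u' := u) (W := ∅) h (by rw [za_swap]; exact h3)).1
      simp at this
    · by_cases hn : n = 0
      · have hn' : n' = 0 := by omega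
        subst hn; subst hn'
        have := equal_supp H (u := u) (u' := u') (n := 0 - 1) (n' := 0 - 1) rfl (by norm_num)
          (by intro h; apply h1; rw [Prod.mk.injEq] at h ⊢; exact ⟨h.1, rfl⟩) h4
        simp at this
      · have := equal_supp H h.symm hn h1 h3
        simp at this
    · have := (strict_supp H h h3).1
      simp at this
  · intro u u' huu hh hu
    simp at hu

end Pool.Agent.MP_0f2988_co
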